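import Mathlib
import Pool.Agent.H713R3.ZA.Boett
import Pool.Agent.H713R3.ZA.TBSUM
import Pool.Agent.H713R3.ZA.TINV
import Pool.Agent.H713R3.ZA.TSURJ

set_option autoImplicit false

open Topology Filter Metric Set Polynomial MeasureTheory

namespace Q78.SL

open Pool.Agent.H713R3.ZA

/-- the evaluation map -/
noncomputable def ev (T : ℂ[X]) : ℂ → ℂ := fun w => T.eval w

/-- the orbit of `z` escapes -/
def Esc (T : ℂ[X]) (z : ℂ) : Prop := Tendsto (fun k : ℕ => ‖(ev T)^[k] z‖) atTop atTop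

/-- no critical point escapes -/
def NE (T : ℂ[X]) : Prop := ∀ c : ℂ, (derivative T).eval c = 0 → ¬ Esc T c

/-- Böttcher data -/
structure BD (T : ℂ[X]) (d : ℕ) (R C R₁ R₃ : ℝ) (ψ φ : ℂ → ℂ) : Prop where
  hR : 1 ≤ R
  hC : 0 < C
  hR₁ : R + 2 * C ≤ R₁
  hR₃ : R₁ + C ≤ R₃
  esc : ∀ z, R ≤ ‖z‖ → 2 * ‖z‖ ≤ ‖T.eval z‖
  ψd : DifferentiableOn ℂ ψ {w : ℂ | R₁ < ‖w‖}
  ψc : ∀ w : ℂ, R₁ < ‖w‖ → ‖ψ w - w‖ ≤ C
  ψi : InjOn ψ {w : ℂ | R₁ < ‖w‖}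
  pw : ∀ w : ℂ, R₁ < ‖w‖ → 2 * ‖w‖ ≤ ‖w ^ d‖
  fe : ∀ w : ℂ, R₁ < ‖w‖ → T.eval (ψ w) = ψ (w ^ d)
  φψ : ∀ z : ℂ, R₃ < ‖z‖ → R₁ < ‖φ z‖ ∧ ψ (φ z) = z

theorem exists_bd {T : ℂ[X]} {d : ℕ} (hd : 2 ≤ d) (hdeg : T.natDegree = d) (hm : T.coeff d = 1) :
    ∃ (R C R₁ R₃ : ℝ) (ψ φ : ℂ → ℂ), BD T d R C R₁ R₃ ψ φ := by
  obtain ⟨n, rfl⟩ : ∃ n, d = n + 1 := ⟨d - 1, by omega⟩
  obtain ⟨x, hx⟩ := surj_holds n T (by omega) hdeg
  rw [hm] at hx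
  obtain ⟨R, C₁, R₁, R₃, ψ, φ, h⟩ := exists_boett bsum_holds inv_holds (one_ne_zero (α := ℂ))
    (show 1 ≤ n by omega) (B := ‖x‖ + 1) (by have := norm_nonneg x; linarith)
  have hxB : x ∈ ball (0 : PE n) (‖x‖ + 1) := by
    rw [mem_ball_zero_iff]; linarith
  have hfx : ∀ z, fx 1 n x z = T.eval z := by
    intro z
    rw [← hx]
    rfl
  have hR1 := h.hR
  have hC := h.hC
  have hR₁ := h.hR₁
  have hR₃ := h.hR₃
  refine ⟨R, C₁, R₁, R₃ , fun w => ψ (x, w), fun z => φ (x, z), hR1, hC, hR₁, hR₃,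
    ?_, ?_, h.ψc x hxB, h.ψi x hxB, ?_, ?_, ?_⟩
  · intro z hz
    rw [← hfx]
    exact h.esc x (by linarith) z hz
  · intro w hw
    exact ((h.ψd (x, w) ⟨hxB, hw⟩).comp w (by fun_prop : DifferentiableWithinAt ℂ (fun w : ℂ => (x, w)) {w : ℂ | R₁ < ‖w‖} w)
      (fun w' hw' => ⟨hxB, hw'⟩))
  · intro w hw
    have := h.pw w hw
    rwa [one_mul] at this
  · intro w hw
    have := h.fe x hxB w hw
    rw [hfx, one_mul] at this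
    exact this
  · intro z hz
    refine ⟨?_, h.ψφ x hxB z hz⟩
    have h1 := h.φc x hxB z hz
    have h2 : ‖z‖ - ‖φ (x, z) - z‖ ≤ ‖φ (x, z)‖ := by
      have h3 := norm_sub_norm_le z (-(φ (x, z) - z))
      rw [norm_neg, sub_neg_eq_add, add_sub_cancel] at h3
      exact h3
    linarith

section
variable {T : ℂ[X]} {d : ℕ} {R C R₁ R₃ : ℝ} {ψ φ : ℂ → ℂ}

theorem grow (h : BD T d R C R₁ R₃ ψ φ) {z : ℂ} (hz : R ≤ ‖z‖) (k : ℕ) :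
    2 ^ k * ‖z‖ ≤ ‖(ev T)^[k] z‖ := by
  induction k with
  | zero => simp
  | succ k ih =>
    have hR := h.hR
    have h1 : R ≤ ‖(ev T)^[k] z‖ := by
      refine hz.trans (le_trans ?_ ih)
      have : (1 : ℝ) ≤ 2 ^ k := one_le_pow₀ (by norm_num)
      nlinarith [norm_nonneg z]
    rw [Function.iterate_succ_apply']
    have h2 := h.esc _ h1
    calc (2 : ℝ) ^ (k + 1) * ‖z‖ = 2 * (2 ^ k * ‖z‖) := by ring
      _ ≤ 2 * ‖(ev T)^[k] z‖ := by linarith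
      _ ≤ _ := h2

theorem grow' (h : BD T d R C R₁ R₃ ψ φ) {z : ℂ} (hz : R ≤ ‖z‖) (k : ℕ) :
    ‖z‖ ≤ ‖(ev T)^[k] z‖ := by
  refine le_trans ?_ (grow h hz k)
  have : (1 : ℝ) ≤ 2 ^ k := one_le_pow₀ (by norm_num)
  nlinarith [norm_nonneg z]

theorem esc_of_large (h : BD T d R C R₁ R₃ ψ φ) {z : ℂ} {N : ℕ} (hz : R ≤ ‖(ev T)^[N] z‖) :
    Esc T z := by
  have hR := h.hR
  have h1 : Tendsto (fun k : ℕ => ‖(ev T)^[k] ((ev T)^[N] z)‖) atTop atTop := by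
    apply tendsto_atTop_mono (fun k => grow h hz k)
    apply Tendsto.atTop_mul_const (by linarith)
    exact tendsto_pow_atTop_atTop_of_one_lt (by norm_num)
  have h2 : (fun k : ℕ => ‖(ev T)^[k] ((ev T)^[N] z)‖) = fun k : ℕ => ‖(ev T)^[k + N] z‖ := by
    funext k
    rw [Function.iterate_add_apply]
  rw [h2] at h1
  exact (tendsto_add_atTop_iff_nat N).1 h1

theorem large_of_esc (h : BD T d R C R₁ R₃ ψ φ) {z : ℂ} (hz : Esc T z) (B : ℝ) :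
    ∃ N, B < ‖(ev T)^[N] z‖ := by
  obtain ⟨N, hN⟩ := (hz.eventually (eventually_gt_atTop B)).exists
  exact ⟨N, hN⟩

theorem ψ_large (h : BD T d R C R₁ R₃ ψ φ) {w : ℂ} (hw : R₁ < ‖w‖) : R < ‖ψ w‖ := by
  have h1 := h.ψc w hw
  have h2 := h.hR₁
  have hC := h.hC
  have h3 : ‖w‖ - ‖ψ w - w‖ ≤ ‖ψ w‖ := by
    have h3 := norm_sub_norm_le w (-(ψ w - w))
    rw [norm_neg, sub_neg_eq_add, add_sub_cancel] at h3
    exact h3
  linarith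

theorem hR₁1 (h : BD T d R C R₁ R₃ ψ φ) : 1 < R₁ := by
  have h1 := h.hR; have h2 := h.hC; have h3 := h.hR₁
  linarith

theorem iter_ψ (h : BD T d R C R₁ R₃ ψ φ) (hd : 2 ≤ d) {w : ℂ} (hw : R₁ < ‖w‖) (N : ℕ) :
    R₁ < ‖w ^ (d ^ N)‖ ∧ (ev T)^[N] (ψ w) = ψ (w ^ (d ^ N)) := by
  have h1 := hR₁1 h
  induction N with
  | zero => simpa using hw
  | succ N ih =>
    obtain ⟨h2, h3⟩ := ih
    have h4 := h.pw _ h2
    rw [← pow_mul, ← pow_succ] at h4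
    refine ⟨by linarith [norm_nonneg (w ^ (d ^ N))], ?_⟩
    rw [Function.iterate_succ_apply', h3]
    have h5 := h.fe _ h2
    rw [← pow_mul, ← pow_succ] at h5
    exact h5

end

end Q78.SL
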