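import Mathlib
import Pool.Agent.Q78.SL.Boet
import Pool.Agent.H713R3.ZA.TROOT

set_option autoImplicit false

open Topology Filter Metric Set Polynomial MeasureTheory

namespace Q78.SL

open Pool.Agent.H713R3.ZA

/-- half plane -/
def HP (R₁ : ℝ) (n : ℕ) : Set ℂ := {ζ : ℂ | Real.log R₁ < n * ζ.re}

theorem isOpen_HP (R₁ : ℝ) (n : ℕ) : IsOpen (HP R₁ n) :=
  isOpen_lt continuous_const (continuous_const.mul Complex.continuous_re)

theorem convex_HP (R₁ : ℝ) (n : ℕ) : Convex ℝ (HP R₁ n) := by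
  intro x hx y hy a b ha hb hab
  simp only [HP, mem_ofPred_eq] at hx hy ⊢
  have e : (a • x + b • y).re = a * x.re + b * y.re := by
    simp [Complex.add_re, Complex.real_smul, Complex.mul_re]
  rw [e]
  rcases ha.eq_or_lt with h | h
  · subst h
    have hb1 : b = 1 := by linarith
    rw [hb1]; simpa using hy
  · have h1 : a * Real.log R₁ < a * (n * x.re) := mul_lt_mul_of_pos_left hx h
    have h2 : b * Real.log R₁ ≤ b * (n * y.re) := mul_le_mul_of_nonneg_left hy.le hb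
    calc Real.log R₁ = a * Real.log R₁ + b * Real.log R₁ := by rw [← add_mul, hab, one_mul]
      _ < a * (n * x.re) + b * (n * y.re) := by linarith
      _ = _ := by ring

theorem exp_large {R₁ : ℝ} (hR : 0 < R₁) {n : ℕ} {ζ : ℂ} (h : ζ ∈ HP R₁ n) :
    R₁ < ‖Complex.exp (n * ζ)‖ := by
  rw [Complex.norm_exp]
  have e : ((n : ℂ) * ζ).re = n * ζ.re := by simp
  rw [e]
  exact (Real.log_lt_iff_lt_exp hR).1 h

theorem iter_poly (T : ℂ[X]) (N : ℕ) (z : ℂ) : (ev T)^[N] z = ((T.comp)^[N] X).eval z := by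
  rw [Polynomial.iterate_comp_eval, eval_X]
  rfl

theorem iter_diff (T : ℂ[X]) (N : ℕ) : Differentiable ℂ ((ev T)^[N]) := by
  have h : (ev T)^[N] = fun z => ((T.comp)^[N] X).eval z := funext (iter_poly T N)
  rw [h]
  exact Polynomial.differentiable _

theorem crit_of_deriv {T : ℂ[X]} {N : ℕ} {z : ℂ} (h : deriv ((ev T)^[N]) z = 0) :
    ∃ i < N, (derivative T).eval ((ev T)^[i] z) = 0 := by
  induction N with
  | zero =>
    exfalso
    rw [Function.iterate_zero, deriv_id] at h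
    exact one_ne_zero h
  | succ N ih =>
    have h1 : deriv ((ev T)^[N + 1]) z = deriv (ev T) ((ev T)^[N] z) * deriv ((ev T)^[N]) z := by
      rw [Function.iterate_succ']
      exact deriv_comp z (T.differentiable _) (iter_diff T N z)
    rw [h1] at h
    rcases mul_eq_zero.1 h with h2 | h2
    · refine ⟨N, by omega, ?_⟩
      have h3 : deriv (ev T) ((ev T)^[N] z) = (derivative T).eval ((ev T)^[N] z) := T.deriv
      rwa [h3] at h2
    · obtain ⟨i, hi, hi2⟩ := ih h2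
      exact ⟨i, by omega, hi2⟩

section
variable {T : ℂ[X]} {d : ℕ} {R C R₁ R₃ : ℝ} {ψ φ : ℂ → ℂ}

/-- holomorphic lift over a convex part of the half plane -/
theorem lift (h : BD T d R C R₁ R₃ ψ φ) (hne : NE T) (N n : ℕ) {U : Set ℂ} (hUo : IsOpen U)
    (hUc : Convex ℝ U) (hUs : U ⊆ HP R₁ n) {ζ₀ u : ℂ} (hζ₀ : ζ₀ ∈ U)
    (hu : (ev T)^[N] u = ψ (Complex.exp (n * ζ₀))) :
    ∃ Z : ℂ → ℂ, DifferentiableOn ℂ Z U ∧ Z ζ₀ = u ∧
      (∀ ζ ∈ U, (ev T)^[N] (Z ζ) = ψ (Complex.exp (n * ζ))) ∧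
      ∀ Z' : ℂ → ℂ, ContinuousOn Z' U → (∃ ζ₁ ∈ U, Z' ζ₁ = Z ζ₁) →
        (∀ ζ ∈ U, (ev T)^[N] (Z' ζ) = ψ (Complex.exp (n * ζ))) →
        ∀ ζ ∈ U, Z' ζ = Z ζ := by
  have hR₁0 : 0 < R₁ := by linarith [hR₁1 h]
  have hE : DifferentiableOn ℂ (fun ζ : ℂ => ψ (Complex.exp (n * ζ))) U := by
    intro ζ hζ
    have h1 : DifferentiableAt ℂ ψ (Complex.exp (n * ζ)) := by
      apply (h.ψd _ (exp_large hR₁0 (hUs hζ))).differentiableAt
      exact (isOpen_lt continuous_const continuous_norm).mem_nhds (exp_large hR₁0 (hUs hζ))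
    have h2 : DifferentiableAt ℂ (fun ζ : ℂ => Complex.exp (n * ζ)) ζ := by fun_prop
    exact (h1.comp ζ h2).differentiableWithinAt
  set F : ℂ → ℂ → ℂ := fun ζ z => (ev T)^[N] z - ψ (Complex.exp (n * ζ)) with hF
  have key := ROOT.main (V := ℂ) U F hUo hUc ?_ ?_ ?_ ζ₀ hζ₀ u
    (by simp only [hF]; rw [hu, sub_self])
  · obtain ⟨Z, h1, h2, h3, h4⟩ := key
    refine ⟨Z, h1, h2, fun ζ hζ => sub_eq_zero.1 (h3 ζ hζ), fun Z' hc he hs => ?_⟩
    exact h4 Z' hc he (fun ζ hζ => sub_eq_zero.2 (hs ζ hζ))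
  · -- smoothness
    have h1 : ContDiff ℂ 1 (fun p : ℂ × ℂ => (ev T)^[N] p.2) := by
      have e : ContDiff ℂ 1 ((ev T)^[N]) := (iter_diff T N).contDiff
      exact e.comp contDiff_snd
    have h2 : ContDiffOn ℂ 1 (fun p : ℂ × ℂ => ψ (Complex.exp (n * p.1))) (U ×ˢ univ) := by
      have h3 : ContDiffOn ℂ 1 (fun ζ : ℂ => ψ (Complex.exp (n * ζ))) U :=
        hE.contDiffOn hUo
      exact h3.comp contDiff_fst.contDiffOn (fun p hp => hp.1)
    exact h1.contDiffOn.sub h2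
  · -- properness
    intro K hK hKc M
    have h1 : ContinuousOn (fun ζ : ℂ => ‖ψ (Complex.exp (n * ζ))‖) K :=
      (hE.continuousOn.mono hK).norm
    obtain ⟨B, hB⟩ := hKc.bddAbove_image h1
    refine ⟨max R (M + B), fun s hs z hz => ?_⟩
    by_contra hcon
    push Not at hcon
    have h2 : R < ‖z‖ := (le_max_left _ _).trans_lt hcon
    have h3 : M + B < ‖z‖ := (le_max_right _ _).trans_lt hcon
    have h4 := grow' h h2.le N
    have h5 : ‖ψ (Complex.exp (n * s))‖ ≤ B := hB ⟨s, hs, rfl⟩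
    have h6 : ‖(ev T)^[N] z‖ ≤ ‖F s z‖ + ‖ψ (Complex.exp (n * s))‖ := by
      have : (ev T)^[N] z = F s z + ψ (Complex.exp (n * s)) := by simp only [hF]; ring
      rw [this]
      exact norm_add_le _ _
    linarith
  · -- simple roots
    intro s hs z hz hder
    have h1 : deriv (F s) z = deriv ((ev T)^[N]) z := by
      simp only [hF]
      rw [deriv_sub_const]
    rw [h1] at hder
    obtain ⟨i, hi, hi2⟩ := crit_of_deriv hder
    apply hne _ hi2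
    have h2 : (ev T)^[N - i] ((ev T)^[i] z) = ψ (Complex.exp (n * s)) := by
      rw [← Function.iterate_add_apply, Nat.sub_add_cancel hi.le]
      exact sub_eq_zero.1 hz
    apply esc_of_large h (N := N - i)
    rw [h2]
    exact (ψ_large h (exp_large hR₁0 (hUs hs))).le

/-- two lifts with a common value coincide -/
theorem lift_unique (h : BD T d R C R₁ R₃ ψ φ) (hne : NE T) (N n : ℕ) {U : Set ℂ} (hUo : IsOpen U)
    (hUc : Convex ℝ U) (hUs : U ⊆ HP R₁ n) {Z Z' : ℂ → ℂ}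
    (hZ : ContinuousOn Z U) (hZ' : ContinuousOn Z' U)
    (h1 : ∀ ζ ∈ U, (ev T)^[N] (Z ζ) = ψ (Complex.exp (n * ζ)))
    (h2 : ∀ ζ ∈ U, (ev T)^[N] (Z' ζ) = ψ (Complex.exp (n * ζ)))
    {ζ₁ : ℂ} (hζ₁ : ζ₁ ∈ U) (he : Z ζ₁ = Z' ζ₁) : ∀ ζ ∈ U, Z ζ = Z' ζ := by
  obtain ⟨Y, -, h4, -, h6⟩ := lift h hne N n hUo hUc hUs (u := Z ζ₁) hζ₁ (h1 ζ₁ hζ₁)
  intro ζ hζ
  rw [h6 Z hZ ⟨ζ₁, hζ₁, h4.symm⟩ h1 ζ hζ, h6 Z' hZ' ⟨ζ₁, hζ₁, by rw [h4, he]⟩ h2 ζ hζ]

theorem HP_mono {R₁ : ℝ} (hR : 1 < R₁) {n : ℕ} (hn : 1 ≤ n) : HP R₁ 1 ⊆ HP R₁ n := by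
  intro ζ hζ
  simp only [HP, mem_ofPred_eq, Nat.cast_one, one_mul] at hζ ⊢
  have h1 : 0 < Real.log R₁ := Real.log_pos hR
  have h2 : (1 : ℝ) ≤ n := by exact_mod_cast hn
  nlinarith

theorem exists_HP (R₁ : ℝ) : ∃ ζ₀ : ℂ, ζ₀ ∈ HP R₁ 1 := by
  refine ⟨((Real.log R₁ + 1 : ℝ) : ℂ), ?_⟩
  simp only [HP, mem_ofPred_eq, Complex.ofReal_re, Nat.cast_one, one_mul]
  linarith

theorem ψexp_cont (h : BD T d R C R₁ R₃ ψ φ) :
    ContinuousOn (fun ζ : ℂ => ψ (Complex.exp ζ)) (HP R₁ 1) := by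
  intro ζ hζ
  have hR₁0 : 0 < R₁ := by linarith [hR₁1 h]
  have h1 := exp_large hR₁0 hζ
  rw [Nat.cast_one, one_mul] at h1
  have h2 : ContinuousAt ψ (Complex.exp ζ) :=
    ((h.ψd _ h1).differentiableAt
      ((isOpen_lt continuous_const continuous_norm).mem_nhds h1)).continuousAt
  exact (h2.comp Complex.continuous_exp.continuousAt).continuousWithinAt

theorem ψexp_val (h : BD T d R C R₁ R₃ ψ φ) (hd : 2 ≤ d) (N : ℕ) : ∀ ζ ∈ HP R₁ 1,
    (ev T)^[N] (ψ (Complex.exp ζ)) = ψ (Complex.exp ((d ^ N : ℕ) * ζ)) := by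
  intro ζ hζ
  have h1 := exp_large (by linarith [hR₁1 h]) hζ
  rw [Nat.cast_one, one_mul] at h1
  rw [(iter_ψ h hd h1 N).2, ← Complex.exp_nat_mul]

/-- the lift which is the inverse Böttcher map near infinity -/
theorem exists_Z (h : BD T d R C R₁ R₃ ψ φ) (hd : 2 ≤ d) (hne : NE T) (N : ℕ) :
    ∃ Z : ℂ → ℂ, DifferentiableOn ℂ Z (HP R₁ (d ^ N)) ∧
      (∀ ζ ∈ HP R₁ (d ^ N), (ev T)^[N] (Z ζ) = ψ (Complex.exp ((d ^ N : ℕ) * ζ))) ∧
      ∀ ζ ∈ HP R₁ 1, Z ζ = ψ (Complex.exp ζ) := by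
  have hR1 := hR₁1 h
  have hn : 1 ≤ d ^ N := Nat.one_le_pow _ _ (by omega)
  obtain ⟨ζ₀, hζ₀⟩ := exists_HP R₁
  obtain ⟨Z, hZ1, hZ2, hZ3, -⟩ := lift h hne N (d ^ N) (isOpen_HP R₁ _) (convex_HP R₁ _) subset_rfl
    (HP_mono hR1 hn hζ₀) (ψexp_val h hd N ζ₀ hζ₀)
  refine ⟨Z, hZ1, hZ3, ?_⟩
  exact lift_unique h hne N (d ^ N) (isOpen_HP R₁ 1) (convex_HP R₁ 1) (HP_mono hR1 hn)
    (hZ1.continuousOn.mono (HP_mono hR1 hn)) (ψexp_cont h)
    (fun ζ hζ => hZ3 ζ (HP_mono hR1 hn hζ)) (ψexp_val h hd N) hζ₀ hZ2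

theorem shift_mem {R₁ : ℝ} {n : ℕ} {ζ w : ℂ} (h : ζ ∈ HP R₁ n) (hw : w.re = 0) : ζ + w ∈ HP R₁ n := by
  simp only [HP, mem_ofPred_eq, Complex.add_re, hw, add_zero] at h ⊢
  exact h

/-- translation of a lift by a period of `exp (n ζ)` -/
theorem shift_lift {N n : ℕ} {Z : ℂ → ℂ} {w : ℂ} (hw : w.re = 0)
    (hw2 : Complex.exp (n * w) = 1) (hZ : DifferentiableOn ℂ Z (HP R₁ n))
    (h1 : ∀ ζ ∈ HP R₁ n, (ev T)^[N] (Z ζ) = ψ (Complex.exp (n * ζ))) :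
    DifferentiableOn ℂ (fun ζ => Z (ζ + w)) (HP R₁ n) ∧
      ∀ ζ ∈ HP R₁ n, (ev T)^[N] (Z (ζ + w)) = ψ (Complex.exp (n * ζ)) := by
  refine ⟨?_, ?_⟩
  · exact hZ.comp (by fun_prop) (fun ζ hζ => shift_mem hζ hw)
  · intro ζ hζ
    rw [h1 _ (shift_mem hζ hw), mul_add, Complex.exp_add, hw2, mul_one]

/-- all the lifts are translates of one of them -/
theorem all_lifts (h : BD T d R C R₁ R₃ ψ φ) (hd : 2 ≤ d) (hdeg : T.natDegree = d) (hne : NE T)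
    (N : ℕ) {Z : ℂ → ℂ} (hZ : DifferentiableOn ℂ Z (HP R₁ (d ^ N)))
    (h1 : ∀ ζ ∈ HP R₁ (d ^ N), (ev T)^[N] (Z ζ) = ψ (Complex.exp ((d ^ N : ℕ) * ζ)))
    (h2 : ∀ ζ ∈ HP R₁ 1, Z ζ = ψ (Complex.exp ζ)) {ζ₀ z : ℂ} (hζ₀ : ζ₀ ∈ HP R₁ (d ^ N))
    (hz : (ev T)^[N] z = ψ (Complex.exp ((d ^ N : ℕ) * ζ₀))) :
    ∃ w : ℂ, w.re = 0 ∧ Complex.exp ((d ^ N : ℕ) * w) = 1 ∧ Z (ζ₀ + w) = z := by
  classical
  have hR1 := hR₁1 h
  set n : ℕ := d ^ N with hn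
  have hn1 : 1 ≤ n := Nat.one_le_pow _ _ (by omega)
  have hnC : (n : ℂ) ≠ 0 := by exact_mod_cast (by omega : n ≠ 0)
  obtain ⟨Y, hY1, hY2, hY3, -⟩ := lift h hne N n (isOpen_HP R₁ _) (convex_HP R₁ _) subset_rfl hζ₀ hz
  obtain ⟨ζ₁, hζ₁⟩ := exists_HP R₁
  have hζ₁n := HP_mono hR1 hn1 hζ₁
  -- the `n` roots
  set w : ℕ → ℂ := fun k => 2 * Real.pi * Complex.I * (k / n) with hw
  have hwre : ∀ k, (w k).re = 0 := by
    intro k
    have : w k = ((2 * Real.pi * (k / n) : ℝ) : ℂ) * Complex.I := by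
      simp only [hw]; push_cast; ring
    rw [this, Complex.re_ofReal_mul, Complex.I_re, mul_zero]
  have hwe : ∀ k, Complex.exp (n * w k) = 1 := by
    intro k
    have : (n : ℂ) * w k = k * (2 * Real.pi * Complex.I) := by
      simp only [hw]; field_simp
    rw [this, Complex.exp_nat_mul_two_pi_mul_I]
  set r : ℕ → ℂ := fun k => ψ (Complex.exp (ζ₁ + w k)) with hr
  have hrZ : ∀ k, Z (ζ₁ + w k) = r k := fun k => h2 _ (shift_mem hζ₁ (hwre k))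
  set P : ℂ[X] := (T.comp)^[N] X - Polynomial.C (ψ (Complex.exp (n * ζ₁))) with hP
  have hdegP : ((T.comp)^[N] X).natDegree = n := by
    rw [Polynomial.natDegree_iterate_comp, hdeg, natDegree_X, mul_one]
  have hPdeg : P.natDegree = n := by
    rw [hP, natDegree_sub_C, hdegP]
  have hP0 : P ≠ 0 := by
    intro h0
    rw [h0, natDegree_zero] at hPdeg
    omega
  have hroot : ∀ u : ℂ, (ev T)^[N] u = ψ (Complex.exp (n * ζ₁)) ↔ u ∈ P.roots.toFinset := by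
    intro u
    rw [Multiset.mem_toFinset, mem_roots hP0, IsRoot.def, hP, eval_sub, eval_C, ← iter_poly, sub_eq_zero]
  -- injectivity of the roots
  have hinj : ∀ k < n, ∀ l < n, r k = r l → k = l := by
    intro k hk l hl hkl
    have e1 := exp_large (by linarith) (shift_mem hζ₁ (hwre k))
    have e2 := exp_large (by linarith) (shift_mem hζ₁ (hwre l))
    rw [Nat.cast_one, one_mul] at e1 e2
    have e3 := h.ψi e1 e2 hkl
    rw [Complex.exp_add, Complex.exp_add] at e3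
    have e4 := mul_left_cancel₀ (Complex.exp_ne_zero _) e3
    have h5 := Complex.isPrimitiveRoot_exp n (by omega)
    have e5 : ∀ k : ℕ, Complex.exp (w k) = Complex.exp (2 * Real.pi * Complex.I / n) ^ k := by
      intro k
      rw [← Complex.exp_nat_mul]
      congr 1
      simp only [hw]; ring
    rw [e5, e5] at e4
    exact h5.pow_inj hk hl e4
  have himg : (Finset.range n).image r = P.roots.toFinset := by
    apply Finset.eq_of_subset_of_card_le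
    · intro u hu
      obtain ⟨k, hk, rfl⟩ := Finset.mem_image.1 hu
      rw [← hroot, ← hrZ k, h1 _ (shift_mem hζ₁n (hwre k)), mul_add, Complex.exp_add, hwe k, mul_one]
    · rw [Finset.card_image_of_injOn (fun k hk l hl => hinj k (Finset.mem_range.1 hk) l (Finset.mem_range.1 hl)),
        Finset.card_range]
      calc P.roots.toFinset.card ≤ Multiset.card P.roots := Multiset.toFinset_card_le _
        _ ≤ P.natDegree := P.card_roots'
        _ = n := hPdeg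
  have hYr : Y ζ₁ ∈ (Finset.range n).image r := by
    rw [himg, ← hroot]
    exact hY3 ζ₁ hζ₁n
  obtain ⟨k, -, hk⟩ := Finset.mem_image.1 hYr
  refine ⟨w k, hwre k, hwe k, ?_⟩
  obtain ⟨hs1, hs2⟩ := shift_lift (T := T) (ψ := ψ) (N := N) (hwre k) (hwe k) hZ h1
  have := lift_unique h hne N n (isOpen_HP R₁ n) (convex_HP R₁ n) subset_rfl hs1.continuousOn
    hY1.continuousOn hs2 hY3 hζ₁n (by rw [hrZ k, hk]) ζ₀ hζ₀
  rw [this, hY2]

/-- two points with the same image under the lift differ by a period of `exp` -/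
theorem lift_inj (h : BD T d R C R₁ R₃ ψ φ) (hd : 2 ≤ d) (hne : NE T)
    (N : ℕ) {Z : ℂ → ℂ} (hZ : DifferentiableOn ℂ Z (HP R₁ (d ^ N)))
    (h1 : ∀ ζ ∈ HP R₁ (d ^ N), (ev T)^[N] (Z ζ) = ψ (Complex.exp ((d ^ N : ℕ) * ζ)))
    (h2 : ∀ ζ ∈ HP R₁ 1, Z ζ = ψ (Complex.exp ζ)) {ζ ζ' : ℂ} (hζ : ζ ∈ HP R₁ (d ^ N))
    (hζ' : ζ' ∈ HP R₁ (d ^ N)) (he : Z ζ = Z ζ') : Complex.exp ζ = Complex.exp ζ' := by
  have hR1 := hR₁1 h
  set n : ℕ := d ^ N with hn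
  have hn1 : 1 ≤ n := Nat.one_le_pow _ _ (by omega)
  have hnC : (n : ℂ) ≠ 0 := by exact_mod_cast (by omega : n ≠ 0)
  have e1 : ψ (Complex.exp (n * ζ)) = ψ (Complex.exp (n * ζ')) := by
    rw [← h1 ζ hζ, ← h1 ζ' hζ', he]
  have e2 := h.ψi (exp_large (by linarith) hζ) (exp_large (by linarith) hζ') e1
  set w : ℂ := ζ' - ζ with hw
  have hwe : Complex.exp (n * w) = 1 := by
    rw [hw, mul_sub, Complex.exp_sub, ← e2, div_self (Complex.exp_ne_zero _)]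
  have hwre : w.re = 0 := by
    have h3 := congrArg norm hwe
    rw [Complex.norm_exp, norm_one, Real.exp_eq_one_iff] at h3
    have h4 : ((n : ℂ) * w).re = n * w.re := by simp
    rw [h4] at h3
    have : (n : ℝ) ≠ 0 := by exact_mod_cast (by omega : n ≠ 0)
    exact (mul_eq_zero.1 h3).resolve_left this
  obtain ⟨hs1, hs2⟩ := shift_lift (T := T) (ψ := ψ) (N := N) hwre hwe hZ h1
  have h5 := lift_unique h hne N n (isOpen_HP R₁ n) (convex_HP R₁ n) subset_rfl hs1.continuousOn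
    hZ.continuousOn hs2 h1 hζ (by rw [hw, add_sub_cancel, he])
  obtain ⟨ζ₁, hζ₁⟩ := exists_HP R₁
  have h6 := h5 ζ₁ (HP_mono hR1 hn1 hζ₁)
  rw [h2 _ (shift_mem hζ₁ hwre), h2 _ hζ₁] at h6
  have e3 := exp_large (by linarith) (shift_mem hζ₁ hwre)
  have e4 := exp_large (by linarith) hζ₁
  rw [Nat.cast_one, one_mul] at e3 e4
  have h7 := h.ψi e3 e4 h6
  rw [Complex.exp_add] at h7
  have h8 : Complex.exp w = 1 := by
    have := mul_left_cancel₀ (Complex.exp_ne_zero ζ₁) (h7.trans (mul_one _).symm)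
    exact this
  have h9 : ζ' = ζ + w := by rw [hw]; ring
  rw [h9, Complex.exp_add, h8, mul_one]

/-- the lift has the period of `exp` -/
theorem lift_per (h : BD T d R C R₁ R₃ ψ φ) (hd : 2 ≤ d) (hne : NE T)
    (N : ℕ) {Z : ℂ → ℂ} (hZ : DifferentiableOn ℂ Z (HP R₁ (d ^ N)))
    (h1 : ∀ ζ ∈ HP R₁ (d ^ N), (ev T)^[N] (Z ζ) = ψ (Complex.exp ((d ^ N : ℕ) * ζ)))
    (h2 : ∀ ζ ∈ HP R₁ 1, Z ζ = ψ (Complex.exp ζ)) {ζ ζ' : ℂ} (hζ : ζ ∈ HP R₁ (d ^ N))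
    (he : Complex.exp ζ = Complex.exp ζ') : Z ζ = Z ζ' := by
  have hR1 := hR₁1 h
  set n : ℕ := d ^ N with hn
  have hn1 : 1 ≤ n := Nat.one_le_pow _ _ (by omega)
  set w : ℂ := ζ' - ζ with hw
  have hw1 : Complex.exp w = 1 := by
    rw [hw, Complex.exp_sub, ← he, div_self (Complex.exp_ne_zero _)]
  have hwe : Complex.exp (n * w) = 1 := by
    rw [Complex.exp_nat_mul, hw1, one_pow]
  have hwre : w.re = 0 := by
    have h3 := congrArg norm hw1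
    rwa [Complex.norm_exp, norm_one, Real.exp_eq_one_iff] at h3
  obtain ⟨hs1, hs2⟩ := shift_lift (T := T) (ψ := ψ) (N := N) hwre hwe hZ h1
  obtain ⟨ζ₁, hζ₁⟩ := exists_HP R₁
  have h5 := lift_unique h hne N n (isOpen_HP R₁ n) (convex_HP R₁ n) subset_rfl hs1.continuousOn
    hZ.continuousOn hs2 h1 (HP_mono hR1 hn1 hζ₁)
    (by rw [h2 _ (shift_mem hζ₁ hwre), h2 _ hζ₁, Complex.exp_add, hw1, mul_one]) ζ hζ
  rw [← h5, hw, add_sub_cancel]

end

end Q78.SL
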