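import Mathlib
import Pool.Agent.Q78.SL.Lift
import Pool.Agent.H713R2.AR.SP3
import Pool.Agent.H713R2.AR.CO

set_option autoImplicit false

open Topology Filter Metric Set Polynomial MeasureTheory

namespace Q78.SL

open Pool.Agent.H713R2 Pool.Agent.H713R2.AR

/-- the inverse Böttcher map in the coordinate `x = 1 / w` -/
noncomputable def gm (ψ : ℂ → ℂ) (x : ℂ) : ℂ := if x = 0 then 1 else x * ψ x⁻¹

/-- its extension by the lift -/
noncomputable def gN (Z : ℂ → ℂ) (x : ℂ) : ℂ := if x = 0 then 1 else x * Z (-Complex.log x)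

/-- radii -/
noncomputable def Rad (R : ℝ) (n : ℕ) : ℝ := Real.exp (-(Real.log R / n))

theorem Rad_pos (R : ℝ) (n : ℕ) : 0 < Rad R n := Real.exp_pos _

theorem Rad_pow {R : ℝ} (hR : 0 < R) {n : ℕ} (hn : 1 ≤ n) : Rad R n ^ n = R⁻¹ := by
  have hnR : (n : ℝ) ≠ 0 := by exact_mod_cast (by omega : n ≠ 0)
  unfold Rad
  rw [← Real.exp_nat_mul, mul_neg, mul_div_cancel₀ _ hnR, Real.exp_neg, Real.exp_log hR]

theorem Rad_lt {R R' : ℝ} (hR : 0 < R) (hRR : R < R') {n : ℕ} (hn : 1 ≤ n) :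
    Rad R' n < Rad R n := by
  have hnR : (0 : ℝ) < n := by exact_mod_cast (by omega : 0 < n)
  unfold Rad
  rw [Real.exp_lt_exp, neg_lt_neg_iff]
  exact div_lt_div_of_pos_right (Real.log_lt_log hR hRR) hnR

theorem neg_log_mem {R : ℝ} {n : ℕ} (hn : 1 ≤ n) {x : ℂ} (hx0 : x ≠ 0)
    (hx : ‖x‖ < Rad R n) : -Complex.log x ∈ HP R n := by
  have hnR : (0 : ℝ) < n := by exact_mod_cast (by omega : 0 < n)
  have h1 : Real.log ‖x‖ < -(Real.log R / n) := by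
    rw [Real.log_lt_iff_lt_exp (norm_pos_iff.2 hx0)]
    exact hx
  simp only [HP, mem_ofPred_eq, Complex.neg_re, Complex.log_re]
  have h2 : Real.log R / n < -Real.log ‖x‖ := by linarith
  rwa [div_lt_iff₀ hnR, mul_comm] at h2

section
variable {T : ℂ[X]} {d : ℕ} {R C R₁ R₃ : ℝ} {ψ φ : ℂ → ℂ}

theorem gN_eq_gm (h : BD T d R C R₁ R₃ ψ φ) {Z : ℂ → ℂ}
    (h2 : ∀ ζ ∈ HP R₁ 1, Z ζ = ψ (Complex.exp ζ)) {x : ℂ} (hx : ‖x‖ < R₁⁻¹) : gN Z x = gm ψ x := by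
  unfold gN gm
  by_cases hx0 : x = 0
  · rw [if_pos hx0, if_pos hx0]
  · rw [if_neg hx0, if_neg hx0]
    have hR : 0 < R₁ := by linarith [hR₁1 h]
    have h3 : ‖x‖ < Rad R₁ 1 := by
      have := Rad_pow hR (le_refl 1)
      rw [pow_one] at this
      rwa [this]
    rw [h2 _ (neg_log_mem le_rfl hx0 h3), Complex.exp_neg, Complex.exp_log hx0]

theorem gm_bound (h : BD T d R C R₁ R₃ ψ φ) {x : ℂ} (hx : ‖x‖ < R₁⁻¹) :
    ‖gm ψ x - 1‖ ≤ C * ‖x‖ := by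
  unfold gm
  have hC := h.hC
  by_cases hx0 : x = 0
  · rw [if_pos hx0, hx0]; simp
  · rw [if_neg hx0]
    have hR : 0 < R₁ := by linarith [hR₁1 h]
    have hxp : 0 < ‖x‖ := norm_pos_iff.2 hx0
    have h1 : R₁ < ‖x⁻¹‖ := by
      rw [norm_inv]
      exact (lt_inv_comm₀ hxp hR).1 hx
    have h2 := h.ψc _ h1
    have h3 : x * ψ x⁻¹ - 1 = x * (ψ x⁻¹ - x⁻¹) := by
      rw [mul_sub, mul_inv_cancel₀ hx0]
    rw [h3, norm_mul, mul_comm]
    exact mul_le_mul_of_nonneg_right h2 hxp.le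

theorem gN_diff (h : BD T d R C R₁ R₃ ψ φ) (hd : 2 ≤ d) (hne : NE T)
    (N : ℕ) {Z : ℂ → ℂ} (hZ : DifferentiableOn ℂ Z (HP R₁ (d ^ N)))
    (h1 : ∀ ζ ∈ HP R₁ (d ^ N), (ev T)^[N] (Z ζ) = ψ (Complex.exp ((d ^ N : ℕ) * ζ)))
    (h2 : ∀ ζ ∈ HP R₁ 1, Z ζ = ψ (Complex.exp ζ)) :
    DifferentiableOn ℂ (gN Z) (ball 0 (Rad R₁ (d ^ N))) := by
  have hR : 0 < R₁ := by linarith [hR₁1 h]
  have hn1 : 1 ≤ d ^ N := Nat.one_le_pow _ _ (by omega)
  have hnhds : ball (0 : ℂ) (Rad R₁ (d ^ N)) ∈ 𝓝 (0 : ℂ) := ball_mem_nhds _ (Rad_pos _ _)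
  rw [← Complex.differentiableOn_compl_singleton_and_continuousAt_iff hnhds]
  constructor
  · rintro x ⟨hx, hx0⟩
    have hx0 : x ≠ 0 := hx0
    rw [mem_ball_zero_iff] at hx
    -- local branch of the logarithm
    set L : ℂ → ℂ := fun y => -(Complex.log (y / x) + Complex.log x) with hL
    have hLd : DifferentiableAt ℂ L x := by
      have e1 : DifferentiableAt ℂ (fun y : ℂ => Complex.log (y / x)) x := by
        apply DifferentiableAt.clog (by fun_prop)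
        rw [div_self hx0]
        exact Complex.one_mem_slitPlane
      exact ((e1.add_const _).neg)
    have hLx : L x = -Complex.log x := by
      simp only [hL]; rw [div_self hx0, Complex.log_one, zero_add]
    have hmem : L x ∈ HP R₁ (d ^ N) := by
      rw [hLx]; exact neg_log_mem hn1 hx0 hx
    have hev : gN Z =ᶠ[𝓝 x] fun y => y * Z (L y) := by
      have e1 : ∀ᶠ y in 𝓝 x, y ≠ 0 := isOpen_ne.mem_nhds hx0
      have e2 : ∀ᶠ y in 𝓝 x, ‖y‖ < Rad R₁ (d ^ N) :=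
        (isOpen_lt continuous_norm continuous_const).mem_nhds hx
      filter_upwards [e1, e2] with y hy0 hy
      unfold gN
      rw [if_neg hy0]
      congr 1
      apply lift_per h hd hne N hZ h1 h2 (neg_log_mem hn1 hy0 hy)
      simp only [hL]
      rw [Complex.exp_neg, Complex.exp_neg, Complex.exp_log hy0, Complex.exp_add,
        Complex.exp_log (div_ne_zero hy0 hx0), Complex.exp_log hx0, div_mul_cancel₀ _ hx0]
    have hZd : DifferentiableAt ℂ Z (L x) :=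
      (hZ _ hmem).differentiableAt ((isOpen_HP _ _).mem_nhds hmem)
    have : DifferentiableAt ℂ (fun y => y * Z (L y)) x :=
      differentiableAt_id.mul (hZd.comp x hLd)
    exact (this.congr_of_eventuallyEq hev).differentiableWithinAt
  · rw [ContinuousAt]
    have e0 : gN Z 0 = 1 := if_pos rfl
    rw [e0, tendsto_iff_norm_sub_tendsto_zero]
    have hb : ∀ᶠ x in 𝓝 (0 : ℂ), ‖x‖ < R₁⁻¹ := by
      have := ball_mem_nhds (0 : ℂ) (inv_pos.2 hR)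
      filter_upwards [this] with x hx
      rwa [mem_ball_zero_iff] at hx
    have hlim : Tendsto (fun x : ℂ => C * ‖x‖) (𝓝 0) (𝓝 0) := by
      have : Continuous fun x : ℂ => C * ‖x‖ := by fun_prop
      simpa using this.tendsto 0
    apply squeeze_zero' (Eventually.of_forall fun x => norm_nonneg _) _ hlim
    filter_upwards [hb] with x hx
    rw [gN_eq_gm h h2 hx]
    exact gm_bound h hx

theorem gN_isExt (h : BD T d R C R₁ R₃ ψ φ) (hd : 2 ≤ d) (hne : NE T)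
    (N : ℕ) {Z : ℂ → ℂ} (hZ : DifferentiableOn ℂ Z (HP R₁ (d ^ N)))
    (h1 : ∀ ζ ∈ HP R₁ (d ^ N), (ev T)^[N] (Z ζ) = ψ (Complex.exp ((d ^ N : ℕ) * ζ)))
    (h2 : ∀ ζ ∈ HP R₁ 1, Z ζ = ψ (Complex.exp ζ)) : IsExt (Rad R₁ (d ^ N)) (gN Z) where
  diff := gN_diff h hd hne N hZ h1 h2
  zero := if_pos rfl
  inj := by
    intro x hx y hy hx0 hy0 he
    have hn1 : 1 ≤ d ^ N := Nat.one_le_pow _ _ (by omega)
    rw [mem_ball_zero_iff] at hx hy
    unfold gN at he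
    rw [if_neg hx0, if_neg hy0, inv_mul_cancel_left₀ hx0, inv_mul_cancel_left₀ hy0] at he
    have h3 := lift_inj h hd hne N hZ h1 h2 (neg_log_mem hn1 hx0 hx) (neg_log_mem hn1 hy0 hy) he
    rw [Complex.exp_neg, Complex.exp_neg, Complex.exp_log hx0, Complex.exp_log hy0] at h3
    exact inv_injective h3

/-- the sublevel sets -/
def EN (T : ℂ[X]) (B : ℝ) (N : ℕ) : Set ℂ := {z | ‖(ev T)^[N] z‖ ≤ B}

theorem compl_sub (h : BD T d R C R₁ R₃ ψ φ) (hd : 2 ≤ d) (hdeg : T.natDegree = d) (hne : NE T)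
    (N : ℕ) {Z : ℂ → ℂ} (hZ : DifferentiableOn ℂ Z (HP R₁ (d ^ N)))
    (h1 : ∀ ζ ∈ HP R₁ (d ^ N), (ev T)^[N] (Z ζ) = ψ (Complex.exp ((d ^ N : ℕ) * ζ)))
    (h2 : ∀ ζ ∈ HP R₁ 1, Z ζ = ψ (Complex.exp ζ)) :
    (UU (gN Z) (Rad (R₁ + 1) (d ^ N)))ᶜ ⊆ EN T (R₃ + 1) N := by
  intro z hz
  by_contra hcon
  have hcon : R₃ + 1 < ‖(ev T)^[N] z‖ := not_le.1 hcon
  apply hz
  have hR : 0 < R₁ := by linarith [hR₁1 h]
  have hn1 : 1 ≤ d ^ N := Nat.one_le_pow _ _ (by omega)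
  have hnR : (0 : ℝ) < (d ^ N : ℕ) := by exact_mod_cast (by omega : 0 < d ^ N)
  have hnC : ((d ^ N : ℕ) : ℂ) ≠ 0 := by exact_mod_cast (by omega : d ^ N ≠ 0)
  have hR3 := h.hR₃
  obtain ⟨e1, e2⟩ := h.φψ _ (by linarith : R₃ < ‖(ev T)^[N] z‖)
  set w := φ ((ev T)^[N] z) with hw
  have hwn : R₁ + 1 < ‖w‖ := by
    have e3 := h.ψc w e1
    rw [e2] at e3
    have e4 := norm_sub_norm_le ((ev T)^[N] z) w
    linarith
  have hw0 : w ≠ 0 := by
    intro h0; rw [h0, norm_zero] at hwn; linarith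
  set ζ₀ : ℂ := Complex.log w / (d ^ N : ℕ) with hζ₀
  have hexp : Complex.exp ((d ^ N : ℕ) * ζ₀) = w := by
    rw [hζ₀, mul_div_cancel₀ _ hnC, Complex.exp_log hw0]
  have hre : ((d ^ N : ℕ) : ℝ) * ζ₀.re = Real.log ‖w‖ := by
    have : ζ₀.re = Real.log ‖w‖ / (d ^ N : ℕ) := by
      rw [hζ₀, Complex.div_natCast_re, Complex.log_re]
    rw [this, mul_div_cancel₀ _ hnR.ne']
  have hmem : ζ₀ ∈ HP R₁ (d ^ N) := by
    simp only [HP, mem_ofPred_eq]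
    rw [hre]
    exact Real.log_lt_log hR (by linarith)
  obtain ⟨w', hw1, hw2, hw3⟩ := all_lifts h hd hdeg hne N hZ h1 h2 hmem (z := z)
    (by rw [hexp, e2])
  set x : ℂ := Complex.exp (-(ζ₀ + w')) with hx
  have hx0 : x ≠ 0 := Complex.exp_ne_zero _
  have hxn : ‖x‖ < Rad (R₁ + 1) (d ^ N) := by
    rw [hx, Complex.norm_exp, Rad, Real.exp_lt_exp, Complex.neg_re, Complex.add_re, hw1, add_zero,
      neg_lt_neg_iff, div_lt_iff₀ hnR, mul_comm, hre]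
    exact Real.log_lt_log (by linarith) hwn
  have hxn' : ‖x‖ < Rad R₁ (d ^ N) := hxn.trans (Rad_lt hR (by linarith) hn1)
  refine ⟨x, ⟨hx0, hxn⟩, ?_⟩
  simp only
  unfold gN
  rw [if_neg hx0, inv_mul_cancel_left₀ hx0, ← hw3]
  apply lift_per h hd hne N hZ h1 h2 (neg_log_mem hn1 hx0 hxn')
  rw [Complex.exp_neg, Complex.exp_log hx0, hx, Complex.exp_neg, inv_inv]

theorem pc_gN (h : BD T d R C R₁ R₃ ψ φ) {Z : ℂ → ℂ}
    (h2 : ∀ ζ ∈ HP R₁ 1, Z ζ = ψ (Complex.exp ζ)) (n j : ℕ) : pc (gN Z) n j = pc (gm ψ) n j := by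
  have hR : 0 < R₁ := by linarith [hR₁1 h]
  have hev : (fun x => gN Z x ^ n) =ᶠ[𝓝 0] fun x => gm ψ x ^ n := by
    filter_upwards [ball_mem_nhds (0 : ℂ) (inv_pos.2 hR)] with x hx
    rw [gN_eq_gm h h2 (mem_ball_zero_iff.1 hx)]
  unfold pc tc
  rw [hev.iteratedDeriv_eq]

theorem gm_diff (h : BD T d R C R₁ R₃ ψ φ) (hd : 2 ≤ d) (hne : NE T) :
    DifferentiableOn ℂ (gm ψ) (ball 0 R₁⁻¹) := by
  have hR : 0 < R₁ := by linarith [hR₁1 h]
  obtain ⟨Z, hZ, h1, h2⟩ := exists_Z h hd hne 0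
  have h3 := gN_diff h hd hne 0 hZ h1 h2
  have h4 : Rad R₁ (d ^ 0) = R₁⁻¹ := by
    have := Rad_pow hR (le_refl 1)
    rwa [pow_one] at this
  rw [h4] at h3
  exact h3.congr fun x hx => (gN_eq_gm h h2 (mem_ball_zero_iff.1 hx)).symm

theorem powSeq (h : BD T d R C R₁ R₃ ψ φ) (hd : 2 ≤ d) (hne : NE T) : PowSeq (pc (gm ψ)) := by
  have hR : 0 < R₁ := by linarith [hR₁1 h]
  exact powSeq_pc (inv_pos.2 hR) (gm_diff h hd hne) (if_pos rfl)

/-- the functional equation -/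
theorem gm_fe (h : BD T d R C R₁ R₃ ψ φ) (hd : 2 ≤ d) (hdeg : T.natDegree = d)
    (hm : T.coeff d = 1) {x : ℂ} (hx : ‖x‖ < R₁⁻¹) :
    ∑ j ∈ Finset.range (d + 1), T.coeff j * (x ^ (d - j) * gm ψ x ^ j) = gm ψ (x ^ d) := by
  have hR : 0 < R₁ := by linarith [hR₁1 h]
  by_cases hx0 : x = 0
  · subst hx0
    have e0 : gm ψ 0 = 1 := if_pos rfl
    rw [zero_pow (by omega), e0, Finset.sum_eq_single d]
    · simp [hm]
    · intro j hj hjd
      rw [zero_pow (by have := Finset.mem_range.1 hj; omega)]; ring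
    · intro hh; exact absurd (Finset.mem_range.2 (by omega)) hh
  · have hxp : 0 < ‖x‖ := norm_pos_iff.2 hx0
    have hxd : x ^ d ≠ 0 := pow_ne_zero _ hx0
    have h1 : R₁ < ‖x⁻¹‖ := by
      rw [norm_inv]
      exact (lt_inv_comm₀ hxp hR).1 hx
    have h2 := h.fe _ h1
    unfold gm
    rw [if_neg hx0, if_neg hxd, ← inv_pow, ← h2, Polynomial.eval_eq_sum_range, hdeg,
      Finset.mul_sum]
    apply Finset.sum_congr rfl
    intro j hj
    have hj' := Finset.mem_range.1 hj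
    have e : x ^ d = x ^ (d - j) * x ^ j := by rw [← pow_add]; congr 1; omega
    rw [e, mul_pow]
    ring

end

end Q78.SL
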