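import Mathlib
import Pool.Agent.Q78.SL.Ext

set_option autoImplicit false

open Topology Filter Metric Set Polynomial MeasureTheory

namespace Q78.SL

open Pool.Agent.H713R2 Pool.Agent.H713R2.AR

section
variable {T : ℂ[X]} {d : ℕ} {R C R₁ R₃ : ℝ} {ψ φ : ℂ → ℂ}

/-- comparison of coefficients in the functional equation -/
theorem coef_rel (h : BD T d R C R₁ R₃ ψ φ) (hd : 2 ≤ d) (hdeg : T.natDegree = d)
    (hm : T.coeff d = 1) (hne : NE T) (i : ℕ) :
    ∑ j ∈ Finset.range (d + 1), T.coeff j *
      (if d - j ≤ i then pc (gm ψ) j (i - (d - j)) else 0) =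
      if d ∣ i then pc (gm ψ) 1 (i / d) else 0 := by
  have hR1 := hR₁1 h
  have hR : 0 < R₁⁻¹ := inv_pos.2 (by linarith)
  have hRle : R₁⁻¹ ≤ 1 := inv_le_one_of_one_le₀ hR1.le
  have hg := gm_diff h hd hne
  set F : ℂ → ℂ := fun x => ∑ j ∈ Finset.range (d + 1), T.coeff j * (x ^ (d - j) * gm ψ x ^ j)
    with hF
  have hFd : DifferentiableOn ℂ F (ball 0 R₁⁻¹) := by
    apply DifferentiableOn.fun_sum
    intro j _
    exact ((differentiableOn_pow _).mul (hg.pow _)).const_mul _
  have h1 : (fun i : ℕ => ∑ j ∈ Finset.range (d + 1), T.coeff j *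
      (if d - j ≤ i then pc (gm ψ) j (i - (d - j)) else 0)) = tc F := by
    apply tc_unique hR hFd
    filter_upwards [ball_mem_nhds (0 : ℂ) hR] with x hx
    have e1 : ∀ i : ℕ, (∑ j ∈ Finset.range (d + 1), T.coeff j *
        (if d - j ≤ i then pc (gm ψ) j (i - (d - j)) else 0)) * x ^ i =
        ∑ j ∈ Finset.range (d + 1), T.coeff j *
        (if d - j ≤ i then pc (gm ψ) j (i - (d - j)) * x ^ i else 0) := by
      intro i
      rw [Finset.sum_mul]
      apply Finset.sum_congr rfl
      intro j _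
      split_ifs <;> ring
    simp only [e1]
    apply hasSum_sum
    intro j _
    apply HasSum.mul_left
    have h2 := (hasSum_tc (hg.pow j) hx).mul_left (x ^ (d - j))
    rw [← hasSum_nat_add_iff' (d - j)]
    have h3 : ∑ i ∈ Finset.range (d - j),
        (if d - j ≤ i then pc (gm ψ) j (i - (d - j)) * x ^ i else 0) = 0 := by
      apply Finset.sum_eq_zero
      intro i hi
      rw [if_neg]
      have := Finset.mem_range.mp hi
      omega
    rw [h3, sub_zero]
    have h4 : (fun i => if d - j ≤ i + (d - j) then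
        pc (gm ψ) j (i + (d - j) - (d - j)) * x ^ (i + (d - j)) else 0) =
        fun i => x ^ (d - j) * (pc (gm ψ) j i * x ^ i) := by
      funext i
      rw [if_pos (by omega), Nat.add_sub_cancel, pow_add]
      ring
    rw [h4]
    exact h2
  have h2 : tc F = tc fun x => gm ψ (x ^ d) := by
    have hev : F =ᶠ[𝓝 0] fun x => gm ψ (x ^ d) := by
      filter_upwards [ball_mem_nhds (0 : ℂ) hR] with x hx
      exact gm_fe h hd hdeg hm (mem_ball_zero_iff.1 hx)
    funext k
    unfold tc
    rw [hev.iteratedDeriv_eq]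
  have h3 := congrFun (h1.trans h2) i
  rw [h3, tc_comp_pow (by omega) hR (s := R₁⁻¹) (pow_le_of_le_one hR.le hRle (by omega)) hg]
  have h4 : pc (gm ψ) 1 (i / d) = tc (gm ψ) (i / d) := by
    unfold pc
    congr 1
    funext x
    rw [pow_one]
  rw [h4]

/-- the recursion for the power of order `d` -/
theorem rec_top (h : BD T d R C R₁ R₃ ψ φ) (hd : 2 ≤ d) (hdeg : T.natDegree = d)
    (hm : T.coeff d = 1) (hne : NE T) (i : ℕ) :
    pc (gm ψ) d i = (if d ∣ i then pc (gm ψ) 1 (i / d) else 0) -
      ∑ j ∈ Finset.range d, T.coeff j * (if d - j ≤ i then pc (gm ψ) j (i - (d - j)) else 0) := by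
  have h1 := coef_rel h hd hdeg hm hne i
  rw [Finset.sum_range_succ, hm, one_mul, Nat.sub_self, if_pos (Nat.zero_le _), Nat.sub_zero] at h1
  rw [← h1]; ring

/-- the constant coefficient vanishes for centered polynomials -/
theorem b0 (h : BD T d R C R₁ R₃ ψ φ) (hd : 2 ≤ d) (hdeg : T.natDegree = d)
    (hm : T.coeff d = 1) (hc : T.coeff (d - 1) = 0) (hne : NE T) : pc (gm ψ) 1 1 = 0 := by
  have h1 := rec_top h hd hdeg hm hne 1
  have h2 : ¬ d ∣ 1 := by
    intro hh
    have := Nat.le_of_dvd one_pos hh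
    omega
  rw [if_neg h2, zero_sub] at h1
  have h3 : ∑ j ∈ Finset.range d, T.coeff j *
      (if d - j ≤ 1 then pc (gm ψ) j (1 - (d - j)) else 0) = 0 := by
    apply Finset.sum_eq_zero
    intro j hj
    have hj' := Finset.mem_range.1 hj
    by_cases hjd : j = d - 1
    · rw [hjd, hc, zero_mul]
    · rw [if_neg (by omega), mul_zero]
  rw [h3, neg_zero] at h1
  have h4 := (powSeq h hd hne).low (k := 1) le_rfl (fun i hi hi' => by omega) d
  rw [h1] at h4
  have hdC : (d : ℂ) ≠ 0 := by exact_mod_cast (by omega : d ≠ 0)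
  exact (mul_eq_zero.1 h4.symm).resolve_left hdC

/-- the coefficient of `z ^ (d - 2)` -/
theorem coeff_two (h : BD T d R C R₁ R₃ ψ φ) (hd : 2 ≤ d) (hdeg : T.natDegree = d)
    (hm : T.coeff d = 1) (hc : T.coeff (d - 1) = 0) (hne : NE T) :
    T.coeff (d - 2) = -(d * pc (gm ψ) 1 2) := by
  have h1 := rec_top h hd hdeg hm hne 2
  have hb := b0 h hd hdeg hm hc hne
  have hP := powSeq h hd hne
  have h2 : (if d ∣ 2 then pc (gm ψ) 1 (2 / d) else 0) = 0 := by
    split_ifs with hh
    · have : d = 2 := by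
        have := Nat.le_of_dvd two_pos hh
        omega
      rw [this]; exact hb
    · rfl
  have h3 : ∑ j ∈ Finset.range d, T.coeff j *
      (if d - j ≤ 2 then pc (gm ψ) j (2 - (d - j)) else 0) = T.coeff (d - 2) := by
    rw [Finset.sum_eq_single (d - 2)]
    · rw [if_pos (by omega), show 2 - (d - (d - 2)) = 0 by omega, hP.zero, mul_one]
    · intro j hj hj2
      have hj' := Finset.mem_range.1 hj
      by_cases hjd : j = d - 1
      · rw [hjd, hc, zero_mul]
      · rw [if_neg (by omega), mul_zero]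
    · intro hh; exact absurd (Finset.mem_range.2 (by omega)) hh
  rw [h2, h3, zero_sub] at h1
  have h4 := hP.low (k := 2) (by norm_num) (fun i hi hi' => by
    have : i = 1 := by omega
    rw [this]; exact hb) d
  rw [h4] at h1
  rw [h1]; ring

end

/-! ### abstract coefficient sequences -/

theorem PowSeq_expand {a : ℕ → ℕ → ℂ} (h : PowSeq a) {k : ℕ} (hk : 1 ≤ k) (n : ℕ) :
    a n k = n * a 1 k + ∑ m ∈ Finset.range n,
      ∑ p ∈ (Finset.HasAntidiagonal.antidiagonal k).filter (fun p => p.1 ≠ 0 ∧ p.2 ≠ 0),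
        a m p.1 * a 1 p.2 := by
  induction n with
  | zero => rw [h.base k hk]; simp
  | succ n ih =>
    rw [Finset.sum_range_succ, h.succ]
    have h2 := Finset.sum_filter_add_sum_filter_not (Finset.HasAntidiagonal.antidiagonal k)
      (fun p => p.1 ≠ 0 ∧ p.2 ≠ 0) (fun p => a n p.1 * a 1 p.2)
    have h3 : ∑ p ∈ (Finset.HasAntidiagonal.antidiagonal k).filter
        (fun p => ¬ (p.1 ≠ 0 ∧ p.2 ≠ 0)), a n p.1 * a 1 p.2 = a n k + a 1 k := by
      rw [Finset.sum_eq_add (k, 0) (0, k)]
      · rw [h.zero, h.zero]; ring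
      · intro heq
        have := congrArg Prod.fst heq
        simp only at this
        omega
      · rintro ⟨i, l⟩ hil ⟨h1, h2⟩
        exfalso
        rw [Finset.mem_filter] at hil
        obtain ⟨hil1, hil2⟩ := hil
        have hil' : i + l = k := Finset.HasAntidiagonal.mem_antidiagonal.mp hil1
        simp only at hil2
        apply hil2
        constructor
        · rintro rfl
          apply h2
          rw [zero_add] at hil'
          rw [hil']
        · rintro rfl
          apply h1
          rw [add_zero] at hil'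
          rw [hil']
      · intro hn
        exfalso; apply hn
        rw [Finset.mem_filter]
        exact ⟨Finset.HasAntidiagonal.mem_antidiagonal.mpr (by simp), by simp⟩
      · intro hn
        exfalso; apply hn
        rw [Finset.mem_filter]
        exact ⟨Finset.HasAntidiagonal.mem_antidiagonal.mpr (by simp), by simp⟩
    rw [← h2, h3]
    conv_lhs => rw [ih]
    push_cast; ring

/-- differentiability from the recursion -/
theorem diff_rec {s : Set ℂ} {d : ℕ} (hd : 2 ≤ d) {a : ℂ → ℕ → ℕ → ℂ} {q : ℂ → ℕ → ℂ}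
    (h : ∀ t ∈ s, PowSeq (a t)) (hq : ∀ j, DifferentiableOn ℂ (fun t => q t j) s)
    (hrec : ∀ t ∈ s, ∀ i, a t d i = (if d ∣ i then a t 1 (i / d) else 0) -
      ∑ j ∈ Finset.range d, q t j * (if d - j ≤ i then a t j (i - (d - j)) else 0)) :
    ∀ k n, DifferentiableOn ℂ (fun t => a t n k) s := by
  intro k
  induction k using Nat.strong_induction_on with
  | _ k ih =>
    by_cases hk : k = 0
    · subst hk
      intro n
      exact (differentiableOn_const (1 : ℂ)).congr fun t ht => (h t ht).zero n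
    have hk1 : 1 ≤ k := by omega
    have h0 : DifferentiableOn ℂ (fun t => a t d k) s := by
      refine DifferentiableOn.congr ?_ (fun t ht => hrec t ht k)
      apply DifferentiableOn.sub
      · split_ifs
        · exact ih (k / d) (Nat.div_lt_self (by omega) (by omega)) 1
        · exact differentiableOn_const _
      · apply DifferentiableOn.fun_sum
        intro j hj
        have hj' := Finset.mem_range.1 hj
        apply (hq j).mul
        split_ifs
        · exact ih _ (by omega) j
        · exact differentiableOn_const _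
    have hE : ∀ n : ℕ, DifferentiableOn ℂ (fun t => ∑ m ∈ Finset.range n,
        ∑ p ∈ (Finset.HasAntidiagonal.antidiagonal k).filter (fun p => p.1 ≠ 0 ∧ p.2 ≠ 0),
        a t m p.1 * a t 1 p.2) s := by
      intro n
      apply DifferentiableOn.fun_sum
      intro m _
      apply DifferentiableOn.fun_sum
      rintro ⟨i, l⟩ hil
      rw [Finset.mem_filter] at hil
      have hil' : i + l = k := Finset.HasAntidiagonal.mem_antidiagonal.mp hil.1
      have hil2 := hil.2
      simp only at hil2 ⊢
      exact (ih i (by omega) m).mul (ih l (by omega) 1)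
    have hdC : (d : ℂ) ≠ 0 := by exact_mod_cast (by omega : d ≠ 0)
    have h1 : DifferentiableOn ℂ (fun t => a t 1 k) s := by
      refine DifferentiableOn.congr ((h0.sub (hE d)).const_mul (d : ℂ)⁻¹) ?_
      intro t ht
      have e := PowSeq_expand (h t ht) hk1 d
      simp only [Pi.sub_apply]
      rw [e]
      field_simp
      ring
    intro n
    refine DifferentiableOn.congr ((h1.const_mul (n : ℂ)).add (hE n)) ?_
    intro t ht
    exact PowSeq_expand (h t ht) hk1 n

/-- bounds for the coefficients of the powers -/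
theorem pow_bound {a : ℕ → ℕ → ℂ} (h : PowSeq a) (h1 : ∀ i, ‖a 1 i‖ ≤ 1) (n k : ℕ) :
    ‖a n k‖ ≤ ((k : ℝ) + 1) ^ n := by
  induction n generalizing k with
  | zero =>
    rw [pow_zero]
    rcases Nat.eq_zero_or_pos k with hk | hk
    · rw [hk, h.zero]; simp
    · rw [h.base k hk]; simp
  | succ n ih =>
    rw [h.succ]
    calc ‖∑ p ∈ Finset.HasAntidiagonal.antidiagonal k, a n p.1 * a 1 p.2‖
        ≤ ∑ p ∈ Finset.HasAntidiagonal.antidiagonal k, ‖a n p.1 * a 1 p.2‖ := norm_sum_le _ _
      _ ≤ ∑ _p ∈ Finset.HasAntidiagonal.antidiagonal k, ((k : ℝ) + 1) ^ n := by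
          apply Finset.sum_le_sum
          intro p hp
          have hp' : p.1 + p.2 = k := Finset.HasAntidiagonal.mem_antidiagonal.mp hp
          have hp1 : (p.1 : ℝ) ≤ k := by exact_mod_cast (by omega : p.1 ≤ k)
          rw [norm_mul]
          calc ‖a n p.1‖ * ‖a 1 p.2‖ ≤ ((p.1 : ℝ) + 1) ^ n * 1 :=
                mul_le_mul (ih _) (h1 _) (norm_nonneg _) (by positivity)
            _ ≤ ((k : ℝ) + 1) ^ n := by
                rw [mul_one]
                exact pow_le_pow_left₀ (by positivity) (by linarith) n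
      _ = ((k : ℝ) + 1) ^ (n + 1) := by
          rw [Finset.sum_const, Finset.Nat.card_antidiagonal, nsmul_eq_mul, pow_succ']
          push_cast; ring

/-- bounds for the derivatives of the coefficients of the powers -/
theorem pow_deriv_bound {a : ℂ → ℕ → ℕ → ℂ} {d : ℕ} {δ : ℝ} (hδ : 0 ≤ δ)
    (h : ∀ᶠ t in 𝓝 (0 : ℂ), PowSeq (a t)) (hd : ∀ n k, DifferentiableAt ℂ (fun t => a t n k) 0)
    (h1 : ∀ i, ‖a 0 1 i‖ ≤ 1) (h2 : ∀ i ≤ d, ‖deriv (fun t => a t 1 i) 0‖ ≤ δ) (n k : ℕ)
    (hk : k ≤ d) : ‖deriv (fun t => a t n k) 0‖ ≤ n * ((k : ℝ) + 1) ^ n * δ := by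
  have h0 : PowSeq (a 0) := h.self_of_nhds
  induction n generalizing k with
  | zero =>
    have : deriv (fun t => a t 0 k) 0 = 0 := by
      rcases Nat.eq_zero_or_pos k with hk | hk
      · have e : (fun t => a t 0 k) =ᶠ[𝓝 0] fun _ => (1 : ℂ) := by
          filter_upwards [h] with t ht
          rw [hk]; exact ht.zero 0
        rw [e.deriv_eq, deriv_const]
      · have e : (fun t => a t 0 k) =ᶠ[𝓝 0] fun _ => (0 : ℂ) := by
          filter_upwards [h] with t ht
          exact ht.base k hk
        rw [e.deriv_eq, deriv_const]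
    rw [this]; simp
  | succ n ih =>
    have e : (fun t => a t (n + 1) k) =ᶠ[𝓝 0] fun t =>
        ∑ p ∈ Finset.HasAntidiagonal.antidiagonal k, a t n p.1 * a t 1 p.2 := by
      filter_upwards [h] with t ht
      exact ht.succ n k
    have e2 : HasDerivAt (fun t => ∑ p ∈ Finset.HasAntidiagonal.antidiagonal k, a t n p.1 * a t 1 p.2)
        (∑ p ∈ Finset.HasAntidiagonal.antidiagonal k, (deriv (fun t => a t n p.1) 0 * a 0 1 p.2 +
          a 0 n p.1 * deriv (fun t => a t 1 p.2) 0)) 0 := by
      apply HasDerivAt.fun_sum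
      intro p _
      exact (hd n p.1).hasDerivAt.mul (hd 1 p.2).hasDerivAt
    rw [e.deriv_eq, e2.deriv]
    calc ‖∑ p ∈ Finset.HasAntidiagonal.antidiagonal k, (deriv (fun t => a t n p.1) 0 * a 0 1 p.2 +
          a 0 n p.1 * deriv (fun t => a t 1 p.2) 0)‖
        ≤ ∑ p ∈ Finset.HasAntidiagonal.antidiagonal k, ‖deriv (fun t => a t n p.1) 0 * a 0 1 p.2 +
          a 0 n p.1 * deriv (fun t => a t 1 p.2) 0‖ := norm_sum_le _ _
      _ ≤ ∑ _p ∈ Finset.HasAntidiagonal.antidiagonal k,
          (n * ((k : ℝ) + 1) ^ n * δ + ((k : ℝ) + 1) ^ n * δ) := by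
          apply Finset.sum_le_sum
          intro p hp
          have hp' : p.1 + p.2 = k := Finset.HasAntidiagonal.mem_antidiagonal.mp hp
          have hp1 : (p.1 : ℝ) ≤ k := by exact_mod_cast (by omega : p.1 ≤ k)
          have hpk : ((p.1 : ℝ) + 1) ^ n ≤ ((k : ℝ) + 1) ^ n :=
            pow_le_pow_left₀ (by positivity) (by linarith) n
          refine (norm_add_le _ _).trans (add_le_add ?_ ?_)
          · rw [norm_mul]
            calc ‖deriv (fun t => a t n p.1) 0‖ * ‖a 0 1 p.2‖
                ≤ (n * ((p.1 : ℝ) + 1) ^ n * δ) * 1 :=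
                  mul_le_mul (ih _ (by omega)) (h1 _) (norm_nonneg _) (by positivity)
              _ ≤ n * ((k : ℝ) + 1) ^ n * δ := by
                  rw [mul_one]
                  gcongr
          · rw [norm_mul]
            exact mul_le_mul ((pow_bound h0 h1 n p.1).trans hpk) (h2 _ (by omega)) (norm_nonneg _)
              (by positivity)
      _ = ((n + 1 : ℕ) : ℝ) * ((k : ℝ) + 1) ^ (n + 1) * δ := by
          rw [Finset.sum_const, Finset.Nat.card_antidiagonal, nsmul_eq_mul]
          push_cast; ring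

end Q78.SL
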