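import Mathlib
import Pool.Agent.Q78.SL.Coef

set_option autoImplicit false

open Topology Filter Metric Set Polynomial MeasureTheory

namespace Q78.SL

open Pool.Agent.H713R2 Pool.Agent.H713R2.AR

/-- the filled Julia set -/
def KK (T : ℂ[X]) : Set ℂ := {z | ¬ Esc T z}

/-- a monic centered polynomial of degree `d` without escaping critical points -/
structure PP (d : ℕ) (T : ℂ[X]) : Prop where
  hd : 2 ≤ d
  deg : T.natDegree = d
  mon : T.coeff d = 1
  cen : T.coeff (d - 1) = 0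
  ne : NE T

/-- the exterior map, with an exhaustion -/
structure ED (d : ℕ) (T : ℂ[X]) (g : ℂ → ℂ) (ρ : ℕ → ℝ) (E : ℕ → Set ℂ) : Prop where
  ext : IsExt 1 g
  b0 : pc g 1 1 = 0
  rel : ∀ i, pc g d i = (if d ∣ i then pc g 1 (i / d) else 0) -
      ∑ j ∈ Finset.range d, T.coeff j * (if d - j ≤ i then pc g j (i - (d - j)) else 0)
  two : T.coeff (d - 2) = -(d * pc g 1 2)
  ρpos : ∀ N, 0 < ρ N
  ρlt : ∀ N, ρ N < 1
  sub : ∀ N, (UU g (ρ N))ᶜ ⊆ E N
  Ec : ∀ N, IsCompact (E N)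
  anti : Antitone E
  inter : ⋂ N, E N = KK T

theorem ED.pow {d : ℕ} {T : ℂ[X]} {g : ℂ → ℂ} {ρ : ℕ → ℝ} {E : ℕ → Set ℂ} (h : ED d T g ρ E) :
    PowSeq (pc g) := powSeq_pc one_pos h.ext.diff h.ext.zero

theorem Rad_lt_one {R : ℝ} (hR : 1 < R) {n : ℕ} (hn : 1 ≤ n) : Rad R n < 1 := by
  have hnR : (0 : ℝ) < n := by exact_mod_cast (by omega : 0 < n)
  unfold Rad
  rw [Real.exp_lt_one_iff, neg_lt_zero]
  exact div_pos (Real.log_pos hR) hnR

theorem Rad_tendsto {R : ℝ} {d : ℕ} (hd : 2 ≤ d) :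
    Tendsto (fun N : ℕ => Rad R (d ^ N)) atTop (𝓝 1) := by
  have h1 : Tendsto (fun N : ℕ => ((d ^ N : ℕ) : ℝ)) atTop atTop := by
    apply tendsto_natCast_atTop_atTop.comp
    exact tendsto_pow_atTop_atTop_of_one_lt (by omega)
  have h2 : Tendsto (fun N : ℕ => Real.log R / ((d ^ N : ℕ) : ℝ)) atTop (𝓝 0) :=
    h1.const_div_atTop _
  have h2' : Tendsto (fun N : ℕ => -(Real.log R / ((d ^ N : ℕ) : ℝ))) atTop (𝓝 0) := by
    have := h2.neg
    rwa [neg_zero] at this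
  have h3 := (Real.continuous_exp.tendsto 0).comp h2'
  rw [Real.exp_zero] at h3
  exact h3

theorem UU_congr {g g' : ℂ → ℂ} {ρ : ℝ} (h : ∀ x, ‖x‖ < ρ → g x = g' x) : UU g ρ = UU g' ρ := by
  unfold UU
  apply image_congr
  intro x hx
  rw [h x hx.2]

theorem exists_ED {d : ℕ} {T : ℂ[X]} (hT : PP d T) : ∃ g ρ E, ED d T g ρ E := by
  classical
  have hd := hT.hd
  obtain ⟨R, C, R₁, R₃, ψ, φ, h⟩ := exists_bd hd hT.deg hT.mon
  have hR1 := hR₁1 h
  have hR : 0 < R₁ := by linarith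
  have hn1 : ∀ N, 1 ≤ d ^ N := fun N => Nat.one_le_pow _ _ (by omega)
  choose Z hZ1 hZ2 hZ3 using fun N => exists_Z h hd hT.ne N
  -- agreement
  have hdiff : ∀ N, DifferentiableOn ℂ (gN (Z N)) (ball 0 (Rad R₁ (d ^ N))) :=
    fun N => gN_diff h hd hT.ne N (hZ1 N) (hZ2 N) (hZ3 N)
  have hagree : ∀ N M x, ‖x‖ < Rad R₁ (d ^ N) → ‖x‖ < Rad R₁ (d ^ M) →
      gN (Z N) x = gN (Z M) x := by
    intro N M x hxN hxM
    set r := min (Rad R₁ (d ^ N)) (Rad R₁ (d ^ M)) with hr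
    have hr0 : 0 < r := lt_min (Rad_pos _ _) (Rad_pos _ _)
    have e1 : AnalyticOnNhd ℂ (gN (Z N)) (ball 0 r) :=
      ((hdiff N).mono (ball_subset_ball (min_le_left _ _))).analyticOnNhd isOpen_ball
    have e2 : AnalyticOnNhd ℂ (gN (Z M)) (ball 0 r) :=
      ((hdiff M).mono (ball_subset_ball (min_le_right _ _))).analyticOnNhd isOpen_ball
    have e3 : gN (Z N) =ᶠ[𝓝 0] gN (Z M) := by
      filter_upwards [ball_mem_nhds (0 : ℂ) (inv_pos.2 hR)] with y hy
      rw [mem_ball_zero_iff] at hy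
      rw [gN_eq_gm h (hZ3 N) hy, gN_eq_gm h (hZ3 M) hy]
    exact e1.eqOn_of_preconnected_of_eventuallyEq e2 (convex_ball _ _).isPreconnected
      (mem_ball_self hr0) e3 (mem_ball_zero_iff.2 (lt_min hxN hxM))
  have hex : ∀ x : ℂ, ‖x‖ < 1 → ∃ N, ‖x‖ < Rad R₁ (d ^ N) := by
    intro x hx
    exact ((Rad_tendsto hd).eventually (lt_mem_nhds hx)).exists
  set G : ℂ → ℂ := fun x => if hx : ∃ N, ‖x‖ < Rad R₁ (d ^ N) then gN (Z (Nat.find hx)) x else 0
    with hG
  have hGN : ∀ N x, ‖x‖ < Rad R₁ (d ^ N) → G x = gN (Z N) x := by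
    intro N x hx
    have hx' : ∃ N, ‖x‖ < Rad R₁ (d ^ N) := ⟨N, hx⟩
    simp only [hG]
    rw [dif_pos hx']
    exact hagree _ _ x (Nat.find_spec hx') hx
  have hpc : ∀ n j, pc G n j = pc (gm ψ) n j := by
    intro n j
    rw [← pc_gN h (hZ3 0) n j]
    have hev : (fun x => G x ^ n) =ᶠ[𝓝 0] fun x => gN (Z 0) x ^ n := by
      filter_upwards [ball_mem_nhds (0 : ℂ) (Rad_pos R₁ (d ^ 0))] with x hx
      rw [hGN 0 x (mem_ball_zero_iff.1 hx)]
    unfold pc tc
    rw [hev.iteratedDeriv_eq]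
  refine ⟨G, fun N => Rad (R₁ + 1) (d ^ N), fun N => EN T (R₃ + 1) N, ⟨?_, ?_, ?_⟩, ?_, ?_, ?_,
    fun N => Rad_pos _ _, fun N => Rad_lt_one (by linarith) (hn1 N), ?_, ?_, ?_, ?_⟩
  · -- differentiability
    intro x hx
    obtain ⟨N, hN⟩ := hex x (mem_ball_zero_iff.1 hx)
    have e1 : G =ᶠ[𝓝 x] gN (Z N) := by
      filter_upwards [isOpen_ball.mem_nhds (mem_ball_zero_iff.2 hN)] with y hy
      exact hGN N y (mem_ball_zero_iff.1 hy)
    have e2 : DifferentiableAt ℂ (gN (Z N)) x :=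
      (hdiff N x (mem_ball_zero_iff.2 hN)).differentiableAt
        (isOpen_ball.mem_nhds (mem_ball_zero_iff.2 hN))
    exact (e2.congr_of_eventuallyEq e1).differentiableWithinAt
  · rw [hGN 0 0 (by rw [norm_zero]; exact Rad_pos _ _)]
    exact if_pos rfl
  · intro x hx y hy hx0 hy0 he
    rw [mem_ball_zero_iff] at hx hy
    obtain ⟨N, hN⟩ := ((Rad_tendsto (R := R₁) hd).eventually (lt_mem_nhds (max_lt hx hy))).exists
    have hxN : ‖x‖ < Rad R₁ (d ^ N) := (le_max_left _ _).trans_lt hN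
    have hyN : ‖y‖ < Rad R₁ (d ^ N) := (le_max_right _ _).trans_lt hN
    rw [hGN N x hxN, hGN N y hyN] at he
    exact (gN_isExt h hd hT.ne N (hZ1 N) (hZ2 N) (hZ3 N)).inj x (mem_ball_zero_iff.2 hxN) y
      (mem_ball_zero_iff.2 hyN) hx0 hy0 he
  · rw [hpc]; exact b0 h hd hT.deg hT.mon hT.cen hT.ne
  · intro i
    simp only [hpc]
    exact rec_top h hd hT.deg hT.mon hT.ne i
  · rw [hpc]; exact coeff_two h hd hT.deg hT.mon hT.cen hT.ne
  · intro N
    rw [UU_congr (g' := gN (Z N)) (fun x hx => hGN N x (hx.trans (Rad_lt hR (by linarith) (hn1 N))))]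
    exact compl_sub h hd hT.deg hT.ne N (hZ1 N) (hZ2 N) (hZ3 N)
  · intro N
    have hR3 := h.hR₃
    have hC := h.hC
    have hRr := h.hR₁
    have h1R := h.hR
    apply IsCompact.of_isClosed_subset (isCompact_closedBall (0 : ℂ) (R₃ + 1))
    · exact isClosed_le ((iter_diff T N).continuous.norm) continuous_const
    · intro z hz
      rw [mem_closedBall_zero_iff]
      by_contra hcon
      push Not at hcon
      have := grow' h (z := z) (by linarith) N
      have hz' : ‖(ev T)^[N] z‖ ≤ R₃ + 1 := hz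
      linarith
  · apply antitone_nat_of_succ_le
    intro N z hz
    have hR3 := h.hR₃
    have hC := h.hC
    have hRr := h.hR₁
    have h1R := h.hR
    have hz' : ‖(ev T)^[N + 1] z‖ ≤ R₃ + 1 := hz
    show ‖(ev T)^[N] z‖ ≤ R₃ + 1
    by_contra hcon
    push Not at hcon
    have h1 := h.esc ((ev T)^[N] z) (by linarith)
    rw [Function.iterate_succ_apply'] at hz'
    have h2 : ‖T.eval ((ev T)^[N] z)‖ ≤ R₃ + 1 := hz'
    linarith
  · have hR3 := h.hR₃
    have hC := h.hC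
    have hRr := h.hR₁
    have h1R := h.hR
    ext z
    rw [mem_iInter]
    constructor
    · intro hz hesc
      obtain ⟨N, hN⟩ := large_of_esc h hesc (R₃ + 1)
      have := hz N
      exact absurd this (not_le.2 hN)
    · intro hz N
      show ‖(ev T)^[N] z‖ ≤ R₃ + 1
      by_contra hcon
      push Not at hcon
      exact hz (esc_of_large h (N := N) (by linarith))

end Q78.SL
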