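import Mathlib
import Pool.Agent.Q78.SL.Glue
import Pool.Agent.H792R2.Dyn.Family

set_option autoImplicit false

open Topology Filter Metric Set Polynomial MeasureTheory

namespace Q78.SL

open Pool.Agent.H713R2 Pool.Agent.H713R2.AR

theorem hb_one {a : ℕ → ℕ → ℂ} (h : a 1 1 = 0) (j : ℕ) : hb a 1 j = a 1 j := by
  rw [hb_eq]
  have : ∑ k : Fin 1, (if 1 - (k : ℕ) ≤ j then a 1 (1 - k) * hb a k (j - (1 - k)) else 0) = 0 := by
    apply Finset.sum_eq_zero
    intro k _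
    have hk : (k : ℕ) = 0 := by have := k.2; omega
    rw [hk, Nat.sub_zero, h, zero_mul, ite_self]
  rw [this, sub_zero]

theorem coef_le_one {g : ℂ → ℂ} (hg : IsExt 1 g) (h0 : pc g 1 1 = 0) (i : ℕ) :
    ‖pc g 1 i‖ ≤ 1 := by
  rcases Nat.eq_zero_or_pos i with hi | hi
  · rw [hi, pc_zero hg]; simp
  rcases Nat.eq_or_lt_of_le hi with hi1 | hi1
  · rw [show i = 1 from hi1.symm, h0]; simp
  obtain ⟨m, rfl⟩ : ∃ m, i = m + 2 := ⟨i - 2, by omega⟩
  set b := ‖pc g 1 (m + 2)‖ with hb'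
  have hb0 : 0 ≤ b := norm_nonneg _
  have key : ∀ ρ ∈ Ioo (0 : ℝ) 1, ρ ^ (2 * (m + 2)) * b ^ 2 ≤ 1 := by
    intro ρ hρ
    have h1 := area_ineq hρ.1 hρ.2 hg (fun _ => 1) 1 (m + 1)
    have h2 : ((m : ℝ) + 1) * ρ ^ (2 * (m + 1)) * b ^ 2 ≤
        ∑ j ∈ Finset.range (m + 1), ((j : ℝ) + 1) * ρ ^ (2 * (j + 1)) *
        ‖∑ n ∈ Finset.range 1, (1 : ℂ) * hb (pc g) (n + 1) (n + 1 + (j + 1))‖ ^ 2 := by
      have h3 := Finset.single_le_sum (f := fun j : ℕ => ((j : ℝ) + 1) * ρ ^ (2 * (j + 1)) *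
        ‖∑ n ∈ Finset.range 1, (1 : ℂ) * hb (pc g) (n + 1) (n + 1 + (j + 1))‖ ^ 2)
        (fun j _ => by have := hρ.1; positivity) (Finset.mem_range.2 (Nat.lt_succ_self m))
      refine le_trans (le_of_eq ?_) h3
      simp only [Finset.range_one, Finset.sum_singleton, one_mul, zero_add]
      rw [hb_one h0, show 1 + (m + 1) = m + 2 by ring]
    have h4 : ∑ n ∈ Finset.range 1, ((n : ℝ) + 1) * (ρ ^ (2 * (n + 1)))⁻¹ * ‖(1 : ℂ)‖ ^ 2 =
        (ρ ^ 2)⁻¹ := by simp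
    rw [h4] at h1
    have h5 := h2.trans h1
    have hρ0 := hρ.1
    have h6 : ((m : ℝ) + 1) * (ρ ^ (2 * (m + 2)) * b ^ 2) ≤ 1 := by
      have h7 := mul_le_mul_of_nonneg_left h5 (by positivity : (0 : ℝ) ≤ ρ ^ 2)
      rw [mul_inv_cancel₀ (by positivity)] at h7
      calc ((m : ℝ) + 1) * (ρ ^ (2 * (m + 2)) * b ^ 2) =
          ρ ^ 2 * (((m : ℝ) + 1) * ρ ^ (2 * (m + 1)) * b ^ 2) := by ring
        _ ≤ 1 := h7
    have h8 : 0 ≤ ρ ^ (2 * (m + 2)) * b ^ 2 := by positivity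
    have h9 : (0 : ℝ) ≤ m := Nat.cast_nonneg m
    nlinarith
  have hlim : Tendsto (fun ρ : ℝ => ρ ^ (2 * (m + 2)) * b ^ 2) (𝓝[<] 1)
      (𝓝 (1 ^ (2 * (m + 2)) * b ^ 2)) := by
    have : Continuous fun ρ : ℝ => ρ ^ (2 * (m + 2)) * b ^ 2 := by fun_prop
    exact (this.tendsto 1).mono_left nhdsWithin_le_nhds
  have h1 : (1 : ℝ) ^ (2 * (m + 2)) * b ^ 2 ≤ 1 := by
    apply le_of_tendsto hlim
    have : Ioo (0 : ℝ) 1 ∈ 𝓝[<] (1 : ℝ) := Ioo_mem_nhdsLT one_pos
    filter_upwards [this] with ρ hρ using key ρ hρ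
  rw [one_pow, one_mul] at h1
  nlinarith

/-- bound for the derivatives of the Faber polynomials -/
theorem faber_bound (R : ℝ) (hR : 0 ≤ R) (n : ℕ) : ∃ C : ℝ, 0 ≤ C ∧ ∀ a : ℕ → ℕ → ℂ, PowSeq a →
    (∀ i, ‖a 1 i‖ ≤ 1) → ∀ z : ℂ, ‖z‖ ≤ R → ‖(derivative (Fb a n)).eval z‖ ≤ C := by
  induction n using Nat.strong_induction_on with
  | _ n ih =>
    choose! C hC0 hC using ih
    refine ⟨n * R ^ (n - 1) + ∑ k : Fin n, ((n : ℝ) + 1) ^ n * C k, ?_, ?_⟩
    · apply add_nonneg (by positivity)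
      apply Finset.sum_nonneg
      intro k _
      exact mul_nonneg (by positivity) (hC0 k k.2)
    · intro a ha h1 z hz
      rw [Fb_eq, derivative_sub, derivative_X_pow, derivative_sum]
      rw [eval_sub, eval_finsetSum, eval_mul, eval_C, eval_pow, eval_X]
      refine (norm_sub_le _ _).trans (add_le_add ?_ ?_)
      · rw [norm_mul, norm_pow, Complex.norm_natCast]
        exact mul_le_mul_of_nonneg_left (pow_le_pow_left₀ (norm_nonneg _) hz _) (Nat.cast_nonneg _)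
      · refine (norm_sum_le _ _).trans (Finset.sum_le_sum fun k _ => ?_)
        rw [derivative_C_mul, eval_mul, eval_C, norm_mul]
        apply mul_le_mul _ (hC k k.2 a ha h1 z hz) (norm_nonneg _) (by positivity)
        refine (pow_bound ha h1 n _).trans (pow_le_pow_left₀ (by positivity) ?_ n)
        have : ((n - (k : ℕ) : ℕ) : ℝ) ≤ n := by exact_mod_cast Nat.sub_le _ _
        linarith

/-! ### the coefficients of the polynomial -/

theorem rel_flip {d : ℕ} {T : ℂ[X]} {g : ℂ → ℂ} {ρ : ℕ → ℝ} {E : ℕ → Set ℂ} (hT : PP d T)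
    (h : ED d T g ρ E) {i : ℕ} (hi : 1 ≤ i) (hid : i ≤ d) :
    T.coeff (d - i) = -∑ k ∈ Finset.range i, T.coeff (d - k) * pc g (d - k) (i - k) := by
  have hd := hT.hd
  have h1 := h.rel i
  have h2 : (if d ∣ i then pc g 1 (i / d) else 0) = 0 := by
    split_ifs with hh
    · have : i = d := Nat.le_antisymm hid (Nat.le_of_dvd (by omega) hh)
      rw [this, Nat.div_self (by omega), h.b0]
    · rfl
  have h3 : ∑ j ∈ Finset.range d, T.coeff j * (if d - j ≤ i then pc g j (i - (d - j)) else 0) =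
      ∑ k ∈ Finset.range i, T.coeff (d - (k + 1)) * pc g (d - (k + 1)) (i - (k + 1)) := by
    rw [← Finset.sum_range_reflect]
    have h4 : ∀ k ∈ Finset.range d, T.coeff (d - 1 - k) *
        (if d - (d - 1 - k) ≤ i then pc g (d - 1 - k) (i - (d - (d - 1 - k))) else 0) =
        if k < i then T.coeff (d - (k + 1)) * pc g (d - (k + 1)) (i - (k + 1)) else 0 := by
      intro k hk
      have hk' := Finset.mem_range.1 hk
      rw [show d - 1 - k = d - (k + 1) by omega, show d - (d - (k + 1)) = k + 1 by omega]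
      by_cases hki : k < i
      · rw [if_pos (by omega), if_pos hki]
      · rw [if_neg (by omega), if_neg hki, mul_zero]
    rw [Finset.sum_congr rfl h4, ← Finset.sum_filter]
    apply Finset.sum_congr _ (fun _ _ => rfl)
    ext k
    rw [Finset.mem_filter, Finset.mem_range, Finset.mem_range]
    omega
  have h5 := Finset.sum_range_succ' (fun k => T.coeff (d - k) * pc g (d - k) (i - k)) i
  have h6 := Finset.sum_range_succ (fun k => T.coeff (d - k) * pc g (d - k) (i - k)) i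
  simp only [Nat.sub_zero, Nat.sub_self, h.pow.zero, mul_one] at h5 h6
  rw [hT.mon, one_mul] at h5
  rw [h2, h3] at h1
  have h7 : ∑ k ∈ Finset.range i, T.coeff (d - (k + 1)) * pc g (d - (k + 1)) (i - (k + 1)) =
      -pc g d i := by rw [h1]; ring
  rw [h7] at h5
  have h8 : ∑ k ∈ Finset.range i, T.coeff (d - k) * pc g (d - k) (i - k) + T.coeff (d - i) = 0 := by
    rw [← h6, h5]; ring
  linear_combination h8

theorem geo_bound {L : ℝ} (hL : 0 < L) (i : ℕ) :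
    ∑ k ∈ Finset.range i, L * (1 + L) ^ k ≤ (1 + L) ^ i := by
  induction i with
  | zero => simp
  | succ i ih =>
    rw [Finset.sum_range_succ, pow_succ]
    nlinarith [pow_pos (by linarith : 0 < 1 + L) i]

theorem geo_bound2 {L : ℝ} (hL : 0 < L) (i : ℕ) :
    ∑ k ∈ Finset.range i, (L * k + 1) * (1 + L) ^ k ≤ i * (1 + L) ^ i := by
  induction i with
  | zero => simp
  | succ i ih =>
    rw [Finset.sum_range_succ, pow_succ]
    have h1 := pow_pos (by linarith : 0 < 1 + L) i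
    push_cast
    have h2 : (0 : ℝ) ≤ i := Nat.cast_nonneg i
    nlinarith [mul_pos h1 hL]

/-- the bound for the coefficients of the powers with both indices at most `d` -/
noncomputable def LL (d : ℕ) : ℝ := ((d : ℝ) + 1) ^ d

theorem LL_pos (d : ℕ) : 0 < LL d := by unfold LL; positivity

theorem pc_le_LL {d : ℕ} {g : ℂ → ℂ} (hp : PowSeq (pc g)) (h1 : ∀ i, ‖pc g 1 i‖ ≤ 1) {n k : ℕ}
    (hn : n ≤ d) (hk : k ≤ d) : ‖pc g n k‖ ≤ LL d := by
  refine (pow_bound hp h1 n k).trans ?_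
  have hk' : (k : ℝ) ≤ d := by exact_mod_cast hk
  calc ((k : ℝ) + 1) ^ n ≤ ((d : ℝ) + 1) ^ n := pow_le_pow_left₀ (by positivity) (by linarith) n
    _ ≤ LL d := pow_le_pow_right₀ (by linarith [(Nat.cast_nonneg d : (0 : ℝ) ≤ d)]) hn

theorem coeff_bound {d : ℕ} {T : ℂ[X]} {g : ℂ → ℂ} {ρ : ℕ → ℝ} {E : ℕ → Set ℂ} (hT : PP d T)
    (h : ED d T g ρ E) : ∀ i ≤ d, ‖T.coeff (d - i)‖ ≤ (1 + LL d) ^ i := by
  intro i
  induction i using Nat.strong_induction_on with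
  | _ i ih =>
    intro hid
    rcases Nat.eq_zero_or_pos i with h0 | h0
    · rw [h0, Nat.sub_zero, hT.mon]; simp
    rw [rel_flip hT h h0 hid, norm_neg]
    refine (norm_sum_le _ _).trans (le_trans (Finset.sum_le_sum fun k hk => ?_)
      (geo_bound (LL_pos d) i))
    have hk' := Finset.mem_range.1 hk
    rw [norm_mul, mul_comm]
    exact mul_le_mul (pc_le_LL h.pow (coef_le_one h.ext h.b0) (Nat.sub_le _ _) (by omega))
      (ih k hk' (by omega)) (norm_nonneg _) (LL_pos d).le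

theorem coeff_bound' {d : ℕ} {T : ℂ[X]} (hT : PP d T) (j : ℕ) : ‖T.coeff j‖ ≤ (1 + LL d) ^ d := by
  obtain ⟨g, ρ, E, h⟩ := exists_ED hT
  have hL := LL_pos d
  by_cases hj : j ≤ d
  · have h1 := coeff_bound hT h (d - j) (Nat.sub_le _ _)
    rw [Nat.sub_sub_self hj] at h1
    exact h1.trans (pow_le_pow_right₀ (by linarith) (Nat.sub_le _ _))
  · rw [coeff_eq_zero_of_natDegree_lt (by rw [hT.deg]; omega), norm_zero]
    positivity

theorem esc_of_growth {T : ℂ[X]} {R : ℝ} (hR : 1 ≤ R) (hg : ∀ z : ℂ, R ≤ ‖z‖ → 2 * ‖z‖ ≤ ‖T.eval z‖)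
    {z : ℂ} (hz : R ≤ ‖z‖) : Esc T z := by
  have h1 : ∀ k : ℕ, 2 ^ k * ‖z‖ ≤ ‖(ev T)^[k] z‖ := by
    intro k
    induction k with
    | zero => simp
    | succ k ih =>
      have h2 : R ≤ ‖(ev T)^[k] z‖ := by
        refine hz.trans (le_trans ?_ ih)
        have : (1 : ℝ) ≤ 2 ^ k := one_le_pow₀ (by norm_num)
        nlinarith [norm_nonneg z]
      rw [Function.iterate_succ_apply']
      have h3 := hg _ h2
      calc (2 : ℝ) ^ (k + 1) * ‖z‖ = 2 * (2 ^ k * ‖z‖) := by ring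
        _ ≤ 2 * ‖(ev T)^[k] z‖ := by linarith
        _ ≤ _ := h3
  apply tendsto_atTop_mono h1
  apply Tendsto.atTop_mul_const (by linarith)
  exact tendsto_pow_atTop_atTop_of_one_lt (by norm_num)

/-- uniform bound for the filled Julia sets -/
theorem KK_bound (d : ℕ) (hd : 2 ≤ d) : ∃ R : ℝ, 1 ≤ R ∧ ∀ T : ℂ[X], PP d T → ∀ z ∈ KK T, ‖z‖ ≤ R := by
  have hL := LL_pos d
  obtain ⟨R, hR1, hR⟩ := Pool.Agent.H792R2.Dyn.escape_radius hd (one_pos (α := ℝ))
    (by positivity : (0 : ℝ) ≤ (1 + LL d) ^ d)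
  refine ⟨R, hR1, fun T hT z hz => ?_⟩
  by_contra hcon
  push Not at hcon
  apply hz
  apply esc_of_growth hR1 _ hcon.le
  exact hR T hT.deg.le (by rw [hT.mon]; simp) (coeff_bound' hT)

end Q78.SL
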