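import Mathlib
import Pool.Agent.Q78.SL.Speed

set_option autoImplicit false

open Topology Filter Metric Set Polynomial MeasureTheory

namespace Q78.SL

open Pool.Agent.H713R2 Pool.Agent.H713R2.AR

theorem KK_compact {d : ℕ} {T : ℂ[X]} (hT : PP d T) : IsCompact (KK T) := by
  obtain ⟨g, ρ, E, h⟩ := exists_ED hT
  rw [← h.inter]
  exact (h.Ec 0).of_isClosed_subset (isClosed_iInter fun N => (h.Ec N).isClosed)
    (iInter_subset _ 0)

/-- the area of the filled Julia set -/
noncomputable def ar (T : ℂ[X]) : ℝ := (volume (KK T)).toReal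

/-- the inequality for one coefficient -/
theorem coef_speed {d : ℕ} {T : ℂ → ℂ[X]} {g : ℂ → ℂ → ℂ} {ρ : ℂ → ℕ → ℝ} {E : ℂ → ℕ → Set ℂ}
    (hT : ∀ t ∈ ball (0 : ℂ) 1, PP d (T t))
    (h : ∀ t ∈ ball (0 : ℂ) 1, ED d (T t) (g t) (ρ t) (E t))
    (hhol : ∀ n j, DifferentiableOn ℂ (fun t => pc (g t) n j) (ball 0 1)) {m : ℕ} (hm : 1 ≤ m)
    {C : ℝ} (hC : ∀ z ∈ KK (T 0), ‖(derivative (Fb (pc (g 0)) m)).eval z‖ ≤ C) :
    m * ‖deriv (fun t => pc (g t) 1 (m + 1)) 0‖ ≤ C * ar (T 0) / Real.pi := by
  have h0 : (0 : ℂ) ∈ ball (0 : ℂ) 1 := mem_ball_self one_pos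
  have hpi := Real.pi_pos
  have hED := h 0 h0
  have hK := KK_compact (hT 0 h0)
  set b := ‖deriv (fun t => pc (g t) 1 (m + 1)) 0‖ with hbdef
  have har : 0 ≤ ar (T 0) := ENNReal.toReal_nonneg
  -- the limit of the integrals
  have hlim : ∀ f : ℂ → ℝ, Continuous f →
      Tendsto (fun N => ∫ z in E 0 N, f z) atTop (𝓝 (∫ z in KK (T 0), f z)) := by
    intro f hf
    have h1 := tendsto_setIntegral_of_antitone (μ := volume) (f := f) (s := E 0)
      (fun j => (hED.Ec j).isClosed.measurableSet) hED.anti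
      ⟨0, hf.continuousOn.integrableOn_compact (hED.Ec 0)⟩
    rwa [hED.inter] at h1
  set f1 : ℂ → ℝ := fun z => ‖(derivative (Fb (pc (g 0)) 1)).eval z‖ ^ 2 with hf1
  set fm : ℂ → ℝ := fun z => ‖(derivative (Fb (pc (g 0)) m)).eval z‖ ^ 2 with hfm
  have hf1c : Continuous f1 := ((Polynomial.continuous _).norm).pow 2
  have hfmc : Continuous fm := ((Polynomial.continuous _).norm).pow 2
  have hdhb : deriv (fun t => hb (pc (g t)) (0 + 1) (0 + 1 + m)) 0 =
      deriv (fun t => pc (g t) 1 (m + 1)) 0 := by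
    have e : (fun t => hb (pc (g t)) (0 + 1) (0 + 1 + m)) =ᶠ[𝓝 0] fun t => pc (g t) 1 (m + 1) := by
      filter_upwards [isOpen_ball.mem_nhds h0] with t ht
      rw [show 0 + 1 + m = m + 1 by ring]
      exact hb_one (h t ht).b0 _
    exact e.deriv_eq
  have hineq : ∀ N, (m * b) ^ 2 ≤ (1 / Real.pi * ∫ z in E 0 N, f1 z) *
      (1 / Real.pi * ∫ z in E 0 N, fm z) := by
    intro N
    have h1 := family_ineq (hED.ρpos N) (hED.ρlt N) (g := g) (fun t ht => (h t ht).ext) hhol 0 hm
    rw [hdhb, zero_add] at h1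
    have hmono : ∀ f : ℂ → ℝ, Continuous f → (∀ z, 0 ≤ f z) →
        ∫ z in (UU (g 0) (ρ 0 N))ᶜ, f z ≤ ∫ z in E 0 N, f z := by
      intro f hf hf0
      apply setIntegral_mono_set
      · exact hf.continuousOn.integrableOn_compact (hED.Ec N)
      · exact Filter.Eventually.of_forall fun z => hf0 z
      · exact (hED.sub N).eventuallyLE
    refine h1.trans ?_
    apply mul_le_mul
    · exact mul_le_mul_of_nonneg_left (hmono f1 hf1c (fun z => by positivity)) (by positivity)
    · exact mul_le_mul_of_nonneg_left (hmono fm hfmc (fun z => by positivity)) (by positivity)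
    · apply mul_nonneg (by positivity)
      apply integral_nonneg; intro z; positivity
    · apply mul_nonneg (by positivity)
      apply integral_nonneg; intro z; positivity
  have hfin := ge_of_tendsto' (((hlim f1 hf1c).const_mul (1 / Real.pi)).mul
    ((hlim fm hfmc).const_mul (1 / Real.pi))) hineq
  -- the two integrals
  have hi1 : ∫ z in KK (T 0), f1 z = ar (T 0) := by
    have e : ∀ z, f1 z = 1 := by
      intro z
      simp only [hf1]
      rw [Fb_eq]
      have : ∑ k : Fin 1, Polynomial.C (pc (g 0) 1 (1 - k)) * Fb (pc (g 0)) k = 0 := by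
        apply Finset.sum_eq_zero
        intro k _
        have hk : (k : ℕ) = 0 := by have := k.2; omega
        rw [hk, Nat.sub_zero, hED.b0, map_zero, zero_mul]
      rw [this, sub_zero, pow_one, derivative_X, eval_one]
      simp
    simp only [e]
    rw [integral_const, smul_eq_mul, mul_one]
    simp [Measure.real, ar]
  have him : ∫ z in KK (T 0), fm z ≤ C ^ 2 * ar (T 0) := by
    have h1 : ∫ z in KK (T 0), fm z ≤ ∫ _z in KK (T 0), C ^ 2 := by
      apply setIntegral_mono_on (hfmc.continuousOn.integrableOn_compact hK)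
        (continuousOn_const.integrableOn_compact hK) hK.isClosed.measurableSet
      intro z hz
      exact pow_le_pow_left₀ (norm_nonneg _) (hC z hz) 2
    refine h1.trans (le_of_eq ?_)
    rw [integral_const, smul_eq_mul]
    simp [Measure.real, ar, mul_comm]
  rw [hi1] at hfin
  by_cases hKe : (KK (T 0)).Nonempty
  · obtain ⟨z₀, hz₀⟩ := hKe
    have hC0 : 0 ≤ C := (norm_nonneg _).trans (hC z₀ hz₀)
    have h1 : (m * b) ^ 2 ≤ (C * ar (T 0) / Real.pi) ^ 2 := by
      calc (m * b) ^ 2 ≤ (1 / Real.pi * ar (T 0)) * (1 / Real.pi * ∫ z in KK (T 0), fm z) := hfin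
        _ ≤ (1 / Real.pi * ar (T 0)) * (1 / Real.pi * (C ^ 2 * ar (T 0))) := by gcongr
        _ = (C * ar (T 0) / Real.pi) ^ 2 := by ring
    exact le_of_sq_le_sq h1 (by positivity)
  · have h1 : ar (T 0) = 0 := by
      rw [ar, not_nonempty_iff_eq_empty.1 hKe]; simp
    rw [h1] at hfin ⊢
    have h2 : (m * b) ^ 2 ≤ 0 := by simpa using hfin
    have h3 : m * b = 0 := by
      have := le_antisymm h2 (sq_nonneg _)
      exact pow_eq_zero_iff (two_ne_zero) |>.1 this
    rw [h3]; simp

/-- The speed limit. -/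
theorem speed (d : ℕ) (hd : 2 ≤ d) : ∃ C : ℝ, 0 < C ∧ ∀ T : ℂ → ℂ[X],
    (∀ t ∈ ball (0 : ℂ) 1, PP d (T t)) →
    (∀ k, DifferentiableOn ℂ (fun t => (T t).coeff k) (ball 0 1)) →
    ‖deriv (fun t => (T t).coeff (d - 2)) 0‖ ≤ d / Real.pi * ar (T 0) ∧
    ∀ k, ‖deriv (fun t => (T t).coeff k) 0‖ ≤ C * ar (T 0) := by
  obtain ⟨R, hR1, hR⟩ := KK_bound d hd
  choose CF hCF0 hCF using fun n => faber_bound R (by linarith) n
  set M : ℝ := ∑ m ∈ Finset.range (d + 1), CF m with hM
  have hM0 : 0 ≤ M := Finset.sum_nonneg fun m _ => hCF0 m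
  have hpi := Real.pi_pos
  have hL := LL_pos d
  have hdR : (0 : ℝ) < d := by exact_mod_cast (by omega : 0 < d)
  refine ⟨d * LL d * (M / Real.pi) * (d * (1 + LL d) ^ d) + 1, by positivity, ?_⟩
  intro T hT hol
  have h0 : (0 : ℂ) ∈ ball (0 : ℂ) 1 := mem_ball_self one_pos
  have hex : ∀ t, ∃ (g : ℂ → ℂ) (ρ : ℕ → ℝ) (E : ℕ → Set ℂ),
      t ∈ ball (0 : ℂ) 1 → ED d (T t) g ρ E := by
    intro t
    by_cases ht : t ∈ ball (0 : ℂ) 1
    · obtain ⟨g, ρ, E, h⟩ := exists_ED (hT t ht)
      exact ⟨g, ρ, E, fun _ => h⟩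
    · exact ⟨0, 0, fun _ => ∅, fun hh => absurd hh ht⟩
  choose g ρ E h using hex
  have hhol : ∀ n j, DifferentiableOn ℂ (fun t => pc (g t) n j) (ball 0 1) := by
    intro n j
    exact diff_rec hd (fun t ht => (h t ht).pow) hol (fun t ht i => (h t ht).rel i) j n
  have har : 0 ≤ ar (T 0) := ENNReal.toReal_nonneg
  have hED := h 0 h0
  have hle1 : ∀ i, ‖pc (g 0) 1 i‖ ≤ 1 := coef_le_one hED.ext hED.b0
  have hdiff : ∀ n j, DifferentiableAt ℂ (fun t => pc (g t) n j) 0 :=
    fun n j => (hhol n j).differentiableAt (isOpen_ball.mem_nhds h0)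
  have hcd : ∀ k, DifferentiableAt ℂ (fun t => (T t).coeff k) 0 :=
    fun k => (hol k).differentiableAt (isOpen_ball.mem_nhds h0)
  constructor
  · have h1 := coef_speed hT h hhol (m := 1) le_rfl (C := 1) (by
      intro z _
      rw [Fb_eq]
      have : ∑ k : Fin 1, Polynomial.C (pc (g 0) 1 (1 - k)) * Fb (pc (g 0)) k = 0 := by
        apply Finset.sum_eq_zero
        intro k _
        have hk : (k : ℕ) = 0 := by have := k.2; omega
        rw [hk, Nat.sub_zero, hED.b0, map_zero, zero_mul]
      rw [this, sub_zero, pow_one, derivative_X, eval_one]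
      simp)
    have h2 : deriv (fun t => (T t).coeff (d - 2)) 0 = -(d * deriv (fun t => pc (g t) 1 2) 0) := by
      have e : (fun t => (T t).coeff (d - 2)) =ᶠ[𝓝 0] fun t => -(d * pc (g t) 1 2) := by
        filter_upwards [isOpen_ball.mem_nhds h0] with t ht
        exact (h t ht).two
      rw [e.deriv_eq]
      exact ((hdiff 1 2).hasDerivAt.const_mul (d : ℂ)).neg.deriv
    rw [h2, norm_neg, norm_mul, Complex.norm_natCast]
    rw [Nat.cast_one, one_mul, one_mul] at h1
    calc d * ‖deriv (fun t => pc (g t) 1 2) 0‖ ≤ d * (ar (T 0) / Real.pi) :=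
          mul_le_mul_of_nonneg_left h1 hdR.le
      _ = d / Real.pi * ar (T 0) := by ring
  · -- all coefficients
    set δ : ℝ := M / Real.pi * ar (T 0) with hδ
    have hδ0 : 0 ≤ δ := by positivity
    have hbd : ∀ i ≤ d, ‖deriv (fun t => pc (g t) 1 i) 0‖ ≤ δ := by
      intro i hi
      rcases Nat.eq_zero_or_pos i with hi0 | hi0
      · have e : (fun t => pc (g t) 1 i) =ᶠ[𝓝 0] fun _ => (1 : ℂ) := by
          filter_upwards [isOpen_ball.mem_nhds h0] with t ht
          rw [hi0]; exact (h t ht).pow.zero 1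
        rw [e.deriv_eq, deriv_const, norm_zero]; exact hδ0
      rcases Nat.eq_or_lt_of_le hi0 with hi1 | hi1
      · have e : (fun t => pc (g t) 1 i) =ᶠ[𝓝 0] fun _ => (0 : ℂ) := by
          filter_upwards [isOpen_ball.mem_nhds h0] with t ht
          rw [show i = 1 from hi1.symm]; exact (h t ht).b0
        rw [e.deriv_eq, deriv_const, norm_zero]; exact hδ0
      obtain ⟨m, rfl⟩ : ∃ m, i = m + 1 := ⟨i - 1, by omega⟩
      have hm : 1 ≤ m := by omega
      have h1 := coef_speed hT h hhol hm (C := CF m) (fun z hz =>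
        hCF m _ hED.pow hle1 z (hR _ (hT 0 h0) z hz))
      have h2 : CF m ≤ M := Finset.single_le_sum (f := CF) (fun m _ => hCF0 m)
        (Finset.mem_range.2 (by omega))
      have hmR : (1 : ℝ) ≤ m := by exact_mod_cast hm
      calc ‖deriv (fun t => pc (g t) 1 (m + 1)) 0‖
          ≤ m * ‖deriv (fun t => pc (g t) 1 (m + 1)) 0‖ := le_mul_of_one_le_left (norm_nonneg _) hmR
        _ ≤ CF m * ar (T 0) / Real.pi := h1
        _ ≤ M * ar (T 0) / Real.pi := by gcongr
        _ = δ := by rw [hδ]; ring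
    set D : ℝ := d * LL d * δ with hD
    have hD0 : 0 ≤ D := by positivity
    have hpow : ∀ᶠ t in 𝓝 (0 : ℂ), PowSeq (pc (g t)) := by
      filter_upwards [isOpen_ball.mem_nhds h0] with t ht using (h t ht).pow
    have hpcd : ∀ n ≤ d, ∀ k ≤ d, ‖deriv (fun t => pc (g t) n k) 0‖ ≤ D := by
      intro n hn k hk
      refine (pow_deriv_bound hδ0 hpow hdiff hle1 hbd n k hk).trans ?_
      have hn' : (n : ℝ) ≤ d := by exact_mod_cast hn
      have hk' : (k : ℝ) ≤ d := by exact_mod_cast hk
      have h3 : ((k : ℝ) + 1) ^ n ≤ LL d := by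
        calc ((k : ℝ) + 1) ^ n ≤ ((d : ℝ) + 1) ^ n :=
              pow_le_pow_left₀ (by positivity) (by linarith) n
          _ ≤ LL d := pow_le_pow_right₀ (by linarith) hn
      rw [hD]
      gcongr
    have key : ∀ i ≤ d, ‖deriv (fun t => (T t).coeff (d - i)) 0‖ ≤ D * (i * (1 + LL d) ^ i) := by
      intro i
      induction i using Nat.strong_induction_on with
      | _ i ih =>
        intro hid
        rcases Nat.eq_zero_or_pos i with hi0 | hi0
        · have e : (fun t => (T t).coeff (d - i)) =ᶠ[𝓝 0] fun _ => (1 : ℂ) := by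
            filter_upwards [isOpen_ball.mem_nhds h0] with t ht
            rw [hi0, Nat.sub_zero]; exact (hT t ht).mon
          rw [e.deriv_eq, deriv_const, norm_zero, hi0]
          simp
        have e : (fun t => (T t).coeff (d - i)) =ᶠ[𝓝 0] fun t =>
            -∑ k ∈ Finset.range i, (T t).coeff (d - k) * pc (g t) (d - k) (i - k) := by
          filter_upwards [isOpen_ball.mem_nhds h0] with t ht
          exact rel_flip (hT t ht) (h t ht) hi0 hid
        have e2 : HasDerivAt (fun t => -∑ k ∈ Finset.range i,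
            (T t).coeff (d - k) * pc (g t) (d - k) (i - k))
            (-∑ k ∈ Finset.range i, (deriv (fun t => (T t).coeff (d - k)) 0 * pc (g 0) (d - k) (i - k) +
              (T 0).coeff (d - k) * deriv (fun t => pc (g t) (d - k) (i - k)) 0)) 0 := by
          apply HasDerivAt.neg
          apply HasDerivAt.fun_sum
          intro k _
          exact (hcd (d - k)).hasDerivAt.mul (hdiff (d - k) (i - k)).hasDerivAt
        rw [e.deriv_eq, e2.deriv, norm_neg]
        refine (norm_sum_le _ _).trans ?_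
        calc ∑ k ∈ Finset.range i, ‖deriv (fun t => (T t).coeff (d - k)) 0 * pc (g 0) (d - k) (i - k) +
              (T 0).coeff (d - k) * deriv (fun t => pc (g t) (d - k) (i - k)) 0‖
            ≤ ∑ k ∈ Finset.range i, D * ((LL d * k + 1) * (1 + LL d) ^ k) := by
              apply Finset.sum_le_sum
              intro k hk
              have hk' := Finset.mem_range.1 hk
              refine (norm_add_le _ _).trans ?_
              rw [norm_mul, norm_mul]
              have a1 := ih k hk' (by omega)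
              have a2 := pc_le_LL (d := d) (n := d - k) (k := i - k) hED.pow hle1
                (Nat.sub_le _ _) (by omega)
              have a3 := coeff_bound (hT 0 h0) hED k (by omega)
              have a4 := hpcd (d - k) (Nat.sub_le _ _) (i - k) (by omega)
              calc _ ≤ (D * (k * (1 + LL d) ^ k)) * LL d + (1 + LL d) ^ k * D := by
                    apply add_le_add
                    · exact mul_le_mul a1 a2 (norm_nonneg _) (by positivity)
                    · exact mul_le_mul a3 a4 (norm_nonneg _) (by positivity)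
                _ = _ := by ring
          _ = D * ∑ k ∈ Finset.range i, (LL d * k + 1) * (1 + LL d) ^ k := by rw [Finset.mul_sum]
          _ ≤ D * (i * (1 + LL d) ^ i) := mul_le_mul_of_nonneg_left (geo_bound2 hL i) hD0
    intro k
    by_cases hk : k ≤ d
    · have h1 := key (d - k) (Nat.sub_le _ _)
      rw [Nat.sub_sub_self hk] at h1
      refine h1.trans ?_
      have h2 : ((d - k : ℕ) : ℝ) * (1 + LL d) ^ (d - k) ≤ d * (1 + LL d) ^ d := by
        apply mul_le_mul
        · exact_mod_cast Nat.sub_le _ _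
        · exact pow_le_pow_right₀ (by linarith) (Nat.sub_le _ _)
        · positivity
        · positivity
      calc D * (((d - k : ℕ) : ℝ) * (1 + LL d) ^ (d - k)) ≤ D * (d * (1 + LL d) ^ d) :=
            mul_le_mul_of_nonneg_left h2 hD0
        _ = d * LL d * (M / Real.pi) * (d * (1 + LL d) ^ d) * ar (T 0) := by rw [hD, hδ]; ring
        _ ≤ _ := by
            rw [add_mul, one_mul]; linarith
    · have e : (fun t => (T t).coeff k) =ᶠ[𝓝 0] fun _ => (0 : ℂ) := by
        filter_upwards [isOpen_ball.mem_nhds h0] with t ht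
        exact coeff_eq_zero_of_natDegree_lt (by rw [(hT t ht).deg]; omega)
      rw [e.deriv_eq, deriv_const, norm_zero]
      positivity

end Q78.SL
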