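import Mathlib
import Pool.Agent.Q78.SL.Family

set_option autoImplicit false

open Topology Filter Metric Set Polynomial MeasureTheory

namespace Q78.SL

open Pool.Agent.H713R2 Pool.Agent.H713R2.AR

/-- conjugation by `z ↦ α z + β` -/
noncomputable def cj (α β : ℂ) (T : ℂ[X]) : ℂ[X] :=
  C α⁻¹ * ((taylor β T).comp (C α * X) - C β)

theorem cj_eval {α β : ℂ} (T : ℂ[X]) (z : ℂ) :
    (cj α β T).eval z = α⁻¹ * (T.eval (α * z + β) - β) := by
  unfold cj
  rw [eval_mul, eval_C, eval_sub, eval_C, eval_comp, eval_mul, eval_C, eval_X, taylor_eval]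

theorem cj_coeff {α β : ℂ} (T : ℂ[X]) {n : ℕ} (hn : n ≠ 0) :
    (cj α β T).coeff n = α⁻¹ * ((taylor β T).coeff n * α ^ n) := by
  unfold cj
  rw [coeff_C_mul, coeff_sub, comp_C_mul_X_coeff, coeff_C, if_neg hn, sub_zero]

theorem cj_coeff_zero {α β : ℂ} (T : ℂ[X]) :
    (cj α β T).coeff 0 = α⁻¹ * ((taylor β T).coeff 0 - β) := by
  unfold cj
  rw [coeff_C_mul, coeff_sub, comp_C_mul_X_coeff, coeff_C_zero, pow_zero, mul_one]

theorem cj_iter {α β : ℂ} (hα : α ≠ 0) (T : ℂ[X]) (k : ℕ) (z : ℂ) :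
    α * (ev (cj α β T))^[k] z + β = (ev T)^[k] (α * z + β) := by
  induction k with
  | zero => rfl
  | succ k ih =>
    rw [Function.iterate_succ_apply', Function.iterate_succ_apply', ← ih]
    show α * (cj α β T).eval _ + β = T.eval _
    rw [cj_eval, mul_inv_cancel_left₀ hα]
    ring

theorem cj_esc {α β : ℂ} (hα : α ≠ 0) (T : ℂ[X]) (z : ℂ) :
    Esc (cj α β T) z ↔ Esc T (α * z + β) := by
  have hαn : 0 < ‖α‖ := norm_pos_iff.2 hα
  unfold Esc
  constructor
  · intro h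
    have h1 : Tendsto (fun k : ℕ => ‖α‖ * ‖(ev (cj α β T))^[k] z‖ + (-‖β‖)) atTop atTop :=
      tendsto_atTop_add_const_right _ _ (h.const_mul_atTop hαn)
    apply tendsto_atTop_mono _ h1
    intro k
    rw [← cj_iter hα T k z]
    have := norm_sub_norm_le (α * (ev (cj α β T))^[k] z) (-β)
    rw [norm_neg, sub_neg_eq_add, norm_mul] at this
    linarith
  · intro h
    have h1 : Tendsto (fun k : ℕ => ‖α‖⁻¹ * (‖(ev T)^[k] (α * z + β)‖ + (-‖β‖))) atTop atTop :=
      (tendsto_atTop_add_const_right _ _ h).const_mul_atTop (inv_pos.2 hαn)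
    apply tendsto_atTop_mono _ h1
    intro k
    rw [← cj_iter hα T k z, inv_mul_le_iff₀ hαn]
    have := norm_add_le (α * (ev (cj α β T))^[k] z) β
    rw [norm_mul] at this
    linarith

theorem cj_deriv {α β : ℂ} (hα : α ≠ 0) (T : ℂ[X]) (z : ℂ) :
    (derivative (cj α β T)).eval z = (derivative T).eval (α * z + β) := by
  have h1 : HasDerivAt (fun z => (cj α β T).eval z) ((derivative (cj α β T)).eval z) z :=
    (cj α β T).hasDerivAt z
  have h2 : HasDerivAt (fun z => α⁻¹ * (T.eval (α * z + β) - β))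
      (α⁻¹ * ((derivative T).eval (α * z + β) * α)) z := by
    have e1 : HasDerivAt (fun z : ℂ => α * z + β) α z := by
      simpa using ((hasDerivAt_id z).const_mul α).add_const β
    have e2 := (T.hasDerivAt (α * z + β)).comp z e1
    exact (e2.sub_const β).const_mul α⁻¹
  have h3 : (fun z => (cj α β T).eval z) = fun z => α⁻¹ * (T.eval (α * z + β) - β) :=
    funext fun z => cj_eval T z
  rw [h3] at h1
  rw [h1.unique h2]
  field_simp

theorem cj_NE {α β : ℂ} (hα : α ≠ 0) {T : ℂ[X]} (h : NE T) : NE (cj α β T) := by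
  intro c hc hesc
  rw [cj_deriv hα] at hc
  exact h _ hc ((cj_esc hα T c).1 hesc)

theorem cj_area {α β : ℂ} (hα : α ≠ 0) (T : ℂ[X]) : ar (cj α β T) = (‖α‖ ^ 2)⁻¹ * ar T := by
  have hαn : 0 < ‖α‖ := norm_pos_iff.2 hα
  have h1 : KK (cj α β T) = (fun z : ℂ => α * z) ⁻¹' ((fun z => z + β) ⁻¹' KK T) := by
    ext z
    show ¬ Esc (cj α β T) z ↔ ¬ Esc T (α * z + β)
    rw [cj_esc hα]
  set L : ℂ →L[ℝ] ℂ := (ContinuousLinearMap.toSpanSingleton ℂ α).restrictScalars ℝ with hL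
  have hdet : LinearMap.det (L : ℂ →ₗ[ℝ] ℂ) = ‖α‖ ^ 2 := det_mul_real α
  have h2 : (fun z : ℂ => α * z) = (L : ℂ → ℂ) := by
    funext z
    simp [hL, mul_comm]
  have h3 : volume (KK (cj α β T)) = ENNReal.ofReal ((‖α‖ ^ 2)⁻¹) * volume (KK T) := by
    rw [h1, h2, Measure.addHaar_preimage_continuousLinearMap volume (by rw [hdet]; positivity),
      measure_preimage_add_right, hdet, abs_of_pos (by positivity)]
  unfold ar
  rw [h3, ENNReal.toReal_mul, ENNReal.toReal_ofReal (by positivity)]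

/-- existence of the normalisation -/
theorem exists_norm {d : ℕ} (hd : 2 ≤ d) {T : ℂ[X]} (hT : T.natDegree = d) :
    ∃ α β : ℂ, α ≠ 0 ∧ α ^ (d - 1) * T.coeff d = 1 ∧ (taylor β T).coeff (d - 1) = 0 := by
  have ha : T.coeff d ≠ 0 := by
    have h := leadingCoeff_ne_zero.2 (show T ≠ 0 by rintro rfl; simp at hT; omega)
    rwa [leadingCoeff, hT] at h
  obtain ⟨α, hα⟩ := IsAlgClosed.exists_pow_nat_eq (T.coeff d)⁻¹ (show 0 < d - 1 by omega)
  have hα0 : α ≠ 0 := by
    rintro rfl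
    rw [zero_pow (by omega)] at hα
    exact inv_ne_zero ha hα.symm
  have hdC : (d : ℂ) ≠ 0 := by exact_mod_cast (by omega : d ≠ 0)
  refine ⟨α, -T.coeff (d - 1) / (d * T.coeff d), hα0, by rw [hα, inv_mul_cancel₀ ha], ?_⟩
  rw [taylor_coeff]
  have h1 : (hasseDeriv (d - 1) T).natDegree ≤ 1 := by
    have := natDegree_hasseDeriv_le T (d - 1)
    rw [hT] at this
    omega
  rw [Polynomial.eval_eq_sum_range' (Nat.lt_succ_of_le h1), Finset.sum_range_succ,
    Finset.sum_range_one, hasseDeriv_coeff, hasseDeriv_coeff, zero_add, Nat.choose_self,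
    show 1 + (d - 1) = d by omega, show d.choose (d - 1) = d by
      rw [Nat.choose_symm (by omega : 1 ≤ d), Nat.choose_one_right]]
  push_cast
  field_simp
  ring

theorem taylor_top {h : ℂ[X]} {β : ℂ} {n : ℕ} (hn : h.natDegree ≤ n) :
    (taylor β h).coeff n = h.coeff n := by
  rcases hn.eq_or_lt with e | e
  · rw [← e, coeff_taylor_natDegree]; rfl
  · rw [coeff_eq_zero_of_natDegree_lt (by rw [natDegree_taylor]; exact e),
      coeff_eq_zero_of_natDegree_lt e]

/-- The direction theorem for an arbitrary polynomial. -/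
theorem direction {T h : ℂ[X]} {r : ℝ} (hd : 2 ≤ T.natDegree)
    (hh : h.natDegree + 2 ≤ T.natDegree)
    (hr : T.natDegree / Real.pi * ‖T.leadingCoeff‖ * ar T < r * ‖h.coeff (T.natDegree - 2)‖) :
    ∃ t : ℂ, ‖t‖ < r ∧ ¬ NE (T + C t * h) := by
  by_contra hcon
  push Not at hcon
  obtain ⟨d, hdT⟩ : ∃ d, T.natDegree = d := ⟨_, rfl⟩
  rw [hdT] at hd hh hr
  have hpi := Real.pi_pos
  have har : 0 ≤ ar T := ENNReal.toReal_nonneg
  have hlc : T.leadingCoeff = T.coeff d := by rw [leadingCoeff, hdT]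
  rw [hlc] at hr
  obtain ⟨α, β, hα, hα2, hβ⟩ := exists_norm hd hdT
  have hαn : 0 < ‖α‖ := norm_pos_iff.2 hα
  have hdR : (0 : ℝ) < d := by exact_mod_cast (by omega : 0 < d)
  have hr0 : 0 < r := by
    by_contra h0
    push Not at h0
    have h1 : r * ‖h.coeff (d - 2)‖ ≤ 0 := mul_nonpos_of_nonpos_of_nonneg h0 (norm_nonneg _)
    have h2 : 0 ≤ d / Real.pi * ‖T.coeff d‖ * ar T := by positivity
    linarith
  set S : ℂ → ℂ[X] := fun τ => cj α β (T + C (r * τ) * h) with hS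
  have hdeg : ∀ t : ℂ, (T + C t * h).natDegree = d := by
    intro t
    rw [natDegree_add_eq_left_of_natDegree_lt, hdT]
    refine lt_of_le_of_lt (natDegree_C_mul_le _ _) ?_
    omega
  have htay : ∀ t : ℂ, ∀ n, (taylor β (T + C t * h)).coeff n =
      (taylor β T).coeff n + t * (taylor β h).coeff n := by
    intro t n
    rw [map_add, taylor_mul, taylor_C, coeff_add, coeff_C_mul]
  have htop : ∀ t : ℂ, ∀ n, d - 1 ≤ n → (taylor β (T + C t * h)).coeff n = (taylor β T).coeff n := by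
    intro t n hn
    rw [htay, coeff_eq_zero_of_natDegree_lt (p := taylor β h) (by rw [natDegree_taylor]; omega),
      mul_zero, add_zero]
  have hα3 : α⁻¹ * (T.coeff d * α ^ d) = 1 := by
    have e : α ^ d = α ^ (d - 1) * α := by rw [← pow_succ]; congr 1; omega
    rw [e]
    calc α⁻¹ * (T.coeff d * (α ^ (d - 1) * α)) = (α ^ (d - 1) * T.coeff d) * (α⁻¹ * α) := by ring
      _ = 1 := by rw [hα2, inv_mul_cancel₀ hα, one_mul]
  have hPP : ∀ τ ∈ ball (0 : ℂ) 1, PP d (S τ) := by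
    intro τ hτ
    rw [mem_ball_zero_iff] at hτ
    have hrt : ‖(r : ℂ) * τ‖ < r := by
      rw [norm_mul, Complex.norm_real, Real.norm_of_nonneg hr0.le]
      nlinarith
    have c1 : (S τ).coeff d = 1 := by
      simp only [hS]
      rw [cj_coeff _ (by omega), htop _ _ (by omega), taylor_top hdT.le, hα3]
    refine ⟨hd, ?_, c1, ?_, cj_NE hα (hcon _ hrt)⟩
    · apply natDegree_eq_of_le_of_coeff_ne_zero _ (by rw [c1]; exact one_ne_zero)
      simp only [hS, cj]
      refine (natDegree_C_mul_le _ _).trans ?_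
      rw [natDegree_sub_C]
      refine natDegree_comp_le.trans ?_
      rw [natDegree_taylor, hdeg]
      calc d * (C α * X : ℂ[X]).natDegree ≤ d * 1 :=
            Nat.mul_le_mul_left _ ((natDegree_C_mul_le _ _).trans natDegree_X_le)
        _ = d := mul_one d
    · simp only [hS]
      rw [cj_coeff _ (by omega), htop _ _ le_rfl, hβ]; ring
  have hol : ∀ k, DifferentiableOn ℂ (fun τ => (S τ).coeff k) (ball 0 1) := by
    intro k
    simp only [hS]
    rcases Nat.eq_zero_or_pos k with hk | hk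
    · subst hk
      simp only [cj_coeff_zero, htay]
      fun_prop
    · simp only [cj_coeff _ (by omega : k ≠ 0), htay]
      fun_prop
  obtain ⟨C', -, hC'⟩ := speed d hd
  have h1 := (hC' S hPP hol).1
  have hS0 : S 0 = cj α β T := by simp [hS]
  rw [hS0, cj_area hα] at h1
  have hder : deriv (fun τ => (S τ).coeff (d - 2)) 0 = r * h.coeff (d - 2) * (α⁻¹ * α ^ (d - 2)) := by
    have e : (fun τ => (S τ).coeff (d - 2)) = fun τ : ℂ =>
        (S 0).coeff (d - 2) + τ * (r * h.coeff (d - 2) * (α⁻¹ * α ^ (d - 2))) := by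
      funext τ
      simp only [hS]
      rcases Nat.eq_zero_or_pos (d - 2) with hk | hk
      · rw [hk, cj_coeff_zero, cj_coeff_zero, htay, htay, taylor_top (h := h) (n := 0) (by omega)]
        ring
      · rw [cj_coeff _ (by omega), cj_coeff _ (by omega), htay, htay,
          taylor_top (h := h) (n := d - 2) (by omega)]
        ring
    rw [e]
    have e2 : HasDerivAt (fun τ : ℂ => (S 0).coeff (d - 2) +
        τ * (r * h.coeff (d - 2) * (α⁻¹ * α ^ (d - 2)))) (r * h.coeff (d - 2) * (α⁻¹ * α ^ (d - 2))) 0 := by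
      simpa using ((hasDerivAt_id (0 : ℂ)).mul_const
        (r * h.coeff (d - 2) * (α⁻¹ * α ^ (d - 2)))).const_add ((S 0).coeff (d - 2))
    exact e2.deriv
  rw [hder, norm_mul, norm_mul, norm_mul, norm_inv, norm_pow, Complex.norm_real,
    Real.norm_of_nonneg hr0.le] at h1
  have hα4 : ‖α‖ ^ (d - 1) * ‖T.coeff d‖ = 1 := by
    rw [← norm_pow, ← norm_mul, hα2, norm_one]
  have hα5 : ‖α‖ ^ (d - 1) = ‖α‖ ^ (d - 2) * ‖α‖ := by rw [← pow_succ]; congr 1; omega
  -- multiply by `‖α‖ ^ 2 * ‖T.coeff d‖`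
  have h2 := mul_le_mul_of_nonneg_left h1 (by positivity : 0 ≤ ‖α‖ ^ 2 * ‖T.coeff d‖)
  have e1 : ‖α‖ ^ 2 * ‖T.coeff d‖ * (r * ‖h.coeff (d - 2)‖ * (‖α‖⁻¹ * ‖α‖ ^ (d - 2))) =
      r * ‖h.coeff (d - 2)‖ := by
    calc _ = (‖α‖ * ‖α‖⁻¹) * (r * ‖h.coeff (d - 2)‖) * ((‖α‖ ^ (d - 2) * ‖α‖) * ‖T.coeff d‖) := by ring
      _ = _ := by rw [← hα5, hα4, mul_inv_cancel₀ hαn.ne']; ring
  have e2 : ‖α‖ ^ 2 * ‖T.coeff d‖ * (d / Real.pi * ((‖α‖ ^ 2)⁻¹ * ar T)) =
      d / Real.pi * ‖T.coeff d‖ * ar T := by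
    field_simp
  rw [e1, e2] at h2
  linarith

/-- All directions, monic centered polynomials. -/
theorem direction_all (d : ℕ) (hd : 2 ≤ d) : ∃ C₀ : ℝ, 0 < C₀ ∧ ∀ T h : ℂ[X], PP d T →
    h.natDegree + 2 ≤ d → ∀ (k : ℕ) (r : ℝ), C₀ * ar T < r * ‖h.coeff k‖ →
    ∃ t : ℂ, ‖t‖ < r ∧ ¬ NE (T + C t * h) := by
  obtain ⟨C', hC0, hC'⟩ := speed d hd
  refine ⟨C', hC0, ?_⟩
  intro T h hT hh k r hr
  by_contra hcon
  push Not at hcon
  have har : 0 ≤ ar T := ENNReal.toReal_nonneg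
  have hr0 : 0 < r := by
    by_contra h0
    push Not at h0
    have h1 : r * ‖h.coeff k‖ ≤ 0 := mul_nonpos_of_nonpos_of_nonneg h0 (norm_nonneg _)
    have h2 : 0 ≤ C' * ar T := by positivity
    linarith
  have h1 := (hC' (fun τ => T + C (r * τ) * h) ?_ ?_).2 k
  · simp only [mul_zero, map_zero, zero_mul, add_zero] at h1
    have e2 : HasDerivAt (fun τ : ℂ => (T + C ((r : ℂ) * τ) * h).coeff k) (r * h.coeff k) 0 := by
      have e3 : (fun τ : ℂ => (T + C ((r : ℂ) * τ) * h).coeff k) =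
          fun τ : ℂ => T.coeff k + τ * (r * h.coeff k) := by
        funext τ
        rw [coeff_add, coeff_C_mul]; ring
      rw [e3]
      simpa using ((hasDerivAt_id (0 : ℂ)).mul_const ((r : ℂ) * h.coeff k)).const_add (T.coeff k)
    rw [e2.deriv, norm_mul, Complex.norm_real, Real.norm_of_nonneg hr0.le] at h1
    linarith
  · intro τ hτ
    rw [mem_ball_zero_iff] at hτ
    have hrt : ‖(r : ℂ) * τ‖ < r := by
      rw [norm_mul, Complex.norm_real, Real.norm_of_nonneg hr0.le]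
      nlinarith
    refine ⟨hd, ?_, ?_, ?_, hcon _ hrt⟩
    · rw [natDegree_add_eq_left_of_natDegree_lt, hT.deg]
      rw [hT.deg]
      refine lt_of_le_of_lt (natDegree_C_mul_le _ _) ?_
      omega
    · rw [coeff_add, coeff_C_mul, hT.mon, coeff_eq_zero_of_natDegree_lt (by omega : h.natDegree < d)]
      ring
    · rw [coeff_add, coeff_C_mul, hT.cen,
        coeff_eq_zero_of_natDegree_lt (by omega : h.natDegree < d - 1)]
      ring
  · intro k
    have e3 : (fun τ : ℂ => (T + C ((r : ℂ) * τ) * h).coeff k) =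
        fun τ : ℂ => T.coeff k + τ * (r * h.coeff k) := by
      funext τ
      rw [coeff_add, coeff_C_mul]; ring
    rw [e3]
    fun_prop

end Q78.SL
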