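import Mathlib
import Pool.Agent.Q78.SL.Conj
import Pool.Agent.H713R5.QJ.Main2

set_option autoImplicit false

open Topology Filter Metric Set Polynomial MeasureTheory

namespace Q78.SL

open Pool.Agent.H713R3.ZA

/-- in the absence of good critical points the good points are the escaping ones -/
theorem good_esc {S : ℂ[X]} (hd : 2 ≤ S.natDegree)
    (hS : ∀ c : ℂ, (derivative S).eval c = 0 → ¬ Pool.Agent.H713R5.QJ.Good (ev S) c) {z : ℂ}
    (hz : Pool.Agent.H713R5.QJ.Good (ev S) z) : Esc S z := by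
  rcases hz with h | ⟨P, hP, w, hw1, hw2, hw3⟩
  · exact h
  exfalso
  obtain ⟨n, hn⟩ : ∃ n, S.natDegree = n + 1 := ⟨S.natDegree - 1, by omega⟩
  have ha : S.coeff (n + 1) ≠ 0 := by
    have h := leadingCoeff_ne_zero.2 (show S ≠ 0 by rintro rfl; simp at hd)
    rwa [leadingCoeff, hn] at h
  obtain ⟨x, hx⟩ := surj_holds n S (by omega) hn
  have hfx : fx (S.coeff (n + 1)) n x = ev S := by
    funext z
    show (fam (S.coeff (n + 1)) n x).eval z = S.eval z
    rw [hx]
  have H := Pool.Agent.H713R5.QJ.hh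
  obtain ⟨i, l, hil⟩ := H.fatp H.ko0 H.ko1 H.ko2 H.ko3 H.root H.kbp (S.coeff (n + 1)) n P ha
    (by omega) hP x w (by rw [hfx]; exact hw1) (by rw [hfx]; exact hw2)
  rw [hfx] at hil
  apply hS (x (some i))
  · rw [← hx, derivative_fam, dfam, eval_mul, eval_prod]
    have : ∏ j : Fin n, (X - C (x (some j)) : ℂ[X]).eval (x (some i)) = 0 := by
      apply Finset.prod_eq_zero (Finset.mem_univ i)
      simp
    rw [this, mul_zero]
  · exact Or.inr ⟨P, hP, _, hil⟩

/-- The first critical point can be made good at a cost which is linear in the area of the Julia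
set. -/
theorem julia_dist {T : ℂ[X]} (hd : 2 ≤ T.natDegree) {r : ℝ}
    (hr : T.natDegree / Real.pi * ‖T.leadingCoeff‖ *
      (volume (Pool.Agent.H713R5.QJ.JS T)).toReal < r) :
    volume (Pool.Agent.H713R5.QJ.JS T) < ⊤ ∧
    ∃ S : ℂ[X], S.natDegree = T.natDegree ∧ S.leadingCoeff = T.leadingCoeff ∧
      (∀ j : ℕ, ‖S.coeff j - T.coeff j‖ < r) ∧
      ∃ c : ℂ, (derivative S).eval c = 0 ∧ Pool.Agent.H713R5.QJ.Good (ev S) c := by
  have hpi := Real.pi_pos
  -- finiteness
  have hT0 : T ≠ 0 := by rintro rfl; simp at hd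
  have hlc : 0 < ‖T.leadingCoeff‖ := norm_pos_iff.2 (leadingCoeff_ne_zero.2 hT0)
  obtain ⟨A, hA⟩ : ∃ A : ℝ, 0 ≤ A ∧ ∀ i, ‖T.coeff i‖ ≤ A := by
    refine ⟨∑ i ∈ Finset.range (T.natDegree + 1), ‖T.coeff i‖,
      Finset.sum_nonneg fun _ _ => norm_nonneg _, fun i => ?_⟩
    by_cases hi : i ≤ T.natDegree
    · exact Finset.single_le_sum (f := fun i => ‖T.coeff i‖) (fun _ _ => norm_nonneg _)
        (Finset.mem_range.2 (by omega))
    · rw [coeff_eq_zero_of_natDegree_lt (by omega), norm_zero]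
      exact Finset.sum_nonneg fun _ _ => norm_nonneg _
  obtain ⟨R, hR1, hR⟩ := Pool.Agent.H792R2.Dyn.escape_radius hd hlc hA.1
  have hsub : Pool.Agent.H713R5.QJ.JS T ⊆ closedBall (0 : ℂ) R := by
    intro z hz
    rw [mem_closedBall_zero_iff]
    by_contra hcon
    push Not at hcon
    apply hz
    exact Or.inl (Or.inl (esc_of_growth hR1 (hR T le_rfl le_rfl hA.2) hcon.le))
  have hfin : volume (Pool.Agent.H713R5.QJ.JS T) < ⊤ :=
    (measure_mono hsub).trans_lt (isCompact_closedBall (0 : ℂ) R).measure_lt_top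
  refine ⟨hfin, ?_⟩
  by_contra hcon
  push Not at hcon
  set v : ℝ := (volume (Pool.Agent.H713R5.QJ.JS T)).toReal with hv
  have hv0 : 0 ≤ v := ENNReal.toReal_nonneg
  set c : ℝ := T.natDegree / Real.pi * ‖T.leadingCoeff‖ with hc
  have hc0 : 0 ≤ c := by positivity
  set ε : ℝ := (r - c * v) / (2 * (c + 1)) with hε
  have hε0 : 0 < ε := by
    apply div_pos (by linarith) (by positivity)
  have hεe : (c + 1) * ε = (r - c * v) / 2 := by
    rw [hε]; field_simp
  obtain ⟨S, s1, s2, s3, s4⟩ := Pool.Agent.H713R5.QJ.apxc T hd ε hε0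
  have hεr : ε < r := by
    have h1 : 0 ≤ c * v := by positivity
    have h2 : 0 ≤ c * ε := by positivity
    nlinarith
  have hSng : ∀ z : ℂ, (derivative S).eval z = 0 → ¬ Pool.Agent.H713R5.QJ.Good (ev S) z := by
    intro z hz
    exact hcon S s1 s2 (fun j => (s3 j).trans hεr) z hz
  have hSd : 2 ≤ S.natDegree := by rw [s1]; exact hd
  have hset : {z : ℂ | ¬ Pool.Agent.H713R5.QJ.Good (Pool.Agent.H713R5.QJ.ev S) z} = KK S := by
    ext z
    show ¬ Pool.Agent.H713R5.QJ.Good (ev S) z ↔ ¬ Esc S z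
    rw [not_iff_not]
    exact ⟨fun hz => good_esc hSd hSng hz, fun hz => Or.inl hz⟩
  rw [hset] at s4
  have har : ar S ≤ v + ε := by
    unfold ar
    have h1 : volume (Pool.Agent.H713R5.QJ.JS T) + ENNReal.ofReal ε ≠ ⊤ :=
      ENNReal.add_ne_top.2 ⟨hfin.ne, ENNReal.ofReal_ne_top⟩
    refine (ENNReal.toReal_mono h1 s4).trans (le_of_eq ?_)
    rw [ENNReal.toReal_add hfin.ne ENNReal.ofReal_ne_top, ENNReal.toReal_ofReal hε0.le]
  have hX : (X ^ (S.natDegree - 2) : ℂ[X]).natDegree = S.natDegree - 2 := natDegree_X_pow _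
  obtain ⟨t, ht, hne⟩ := direction (T := S) (h := X ^ (S.natDegree - 2)) (r := r - ε) hSd
    (by rw [hX]; omega) (by
      rw [coeff_X_pow, if_pos rfl, norm_one, mul_one, s2, s1]
      calc T.natDegree / Real.pi * ‖T.leadingCoeff‖ * ar S = c * ar S := rfl
        _ ≤ c * (v + ε) := mul_le_mul_of_nonneg_left har hc0
        _ < r - ε := by nlinarith)
  apply hne
  intro z hz hesc
  have hdeg : (S + C t * X ^ (S.natDegree - 2)).natDegree = S.natDegree := by
    rw [natDegree_add_eq_left_of_natDegree_lt]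
    refine lt_of_le_of_lt (natDegree_C_mul_le _ _) ?_
    rw [hX]; omega
  refine hcon (S + C t * X ^ (S.natDegree - 2)) (hdeg.trans s1) ?_ ?_ z hz (Or.inl hesc)
  · rw [leadingCoeff, hdeg, coeff_add, coeff_C_mul, coeff_X_pow, if_neg (by omega), mul_zero,
      add_zero, ← s2]
    rfl
  · intro j
    rw [coeff_add, coeff_C_mul, coeff_X_pow]
    have h1 := s3 j
    have h2 : ‖t * (if j = S.natDegree - 2 then (1 : ℂ) else 0)‖ ≤ ‖t‖ := by
      split_ifs
      · rw [mul_one]
      · rw [mul_zero, norm_zero]; exact norm_nonneg _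
    calc ‖S.coeff j + t * (if j = S.natDegree - 2 then (1 : ℂ) else 0) - T.coeff j‖
        = ‖(S.coeff j - T.coeff j) + t * (if j = S.natDegree - 2 then (1 : ℂ) else 0)‖ := by
          congr 1; ring
      _ ≤ ‖S.coeff j - T.coeff j‖ + ‖t * (if j = S.natDegree - 2 then (1 : ℂ) else 0)‖ :=
          norm_add_le _ _
      _ < r := by linarith

end Q78.SL
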